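import Pool.Agent.Helper95.Ric.DArith

set_option autoImplicit false

/-! # CERTD: run 2 (98 boxes) -/

namespace RicP

theorem dr20_0 : vbx (.x (.y (.x .i .i) (.x .i .i)) (.y (.x .i .i) (.x .i .i))) 2048 1024 0 1024
    = true := by decide +kernel

theorem dk20 : DOK 2048 1024 0 1024 :=
  (vbx_sound _ _ _ _ _ dr20_0)

theorem dr55_0 : vbx .o 5120 1024 5120 1024 = true := by decide +kernel

theorem dk55 : DOK 5120 1024 5120 1024 :=
  (vbx_sound _ _ _ _ _ dr55_0)

theorem dr60_0 : vbx (.y (.x .i .i) (.x (.y .i .i) (.y .i .i))) 6144 512 0 1024 = true :=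
    by decide +kernel

theorem dr60_1 : vbx (.y (.x .i (.y .i .i)) (.x (.y .i .i) (.y .i (.x .i .i)))) 6656 512 0 1024
    = true := by decide +kernel

theorem dk60 : DOK 6144 1024 0 1024 :=
  (dok_x (w' := 512) (X' := 6656) rfl rfl
  (vbx_sound _ _ _ _ _ dr60_0)
  (vbx_sound _ _ _ _ _ dr60_1))

theorem dr63_0 : vbx (.y (.x (.y .i .i) (.y .i .i)) (.x (.y .i .i) (.y .i .i))) 6144 256 3072
    512 = true := by decide +kernel

theorem dr63_1 : vbx (.y (.x (.y .i .i) (.y .i .i)) (.x (.y .i .i) (.y .i .i))) 6400 256 3072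
    512 = true := by decide +kernel

theorem dr63_2 : vbx (.y (.x (.y .i .i) (.y .i .i)) (.x (.y .i .i) (.y .i (.x .i .i)))) 6144 256
    3584 512 = true := by decide +kernel

theorem dr63_3 : vbx (.y (.x (.y .i .i) (.y .i (.x .i .i))) (.x (.y (.x .i .i) (.x .i .i)) (.y
    (.x .i .i) (.x .i .o)))) 6400 256 3584 512 = true := by decide +kernel

theorem dr63_4 : vbx (.y (.x (.y .i .i) (.y .i .i)) (.x (.y .i .i) (.y .i (.x .i .i)))) 6656 256
    3072 512 = true := by decide +kernel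

theorem dr63_5 : vbx (.x (.y .i (.x .i .i)) (.y .i (.x .i .i))) 6912 256 3072 256 = true :=
    by decide +kernel

theorem dr63_6 : vbx (.x (.y (.x .i .i) (.x .i .i)) (.y (.x .i .i) (.x .i .i))) 6912 256 3328
    256 = true := by decide +kernel

theorem dr63_7 : vbx (.y (.x (.y (.x .i .i) (.x .i .i)) (.y (.x .i .i) (.x .i .i))) (.x (.y (.x
    .i .i) .o) .o)) 6656 256 3584 512 = true := by decide +kernel

theorem dr63_8 : vbx (.y (.x (.y (.x .i .i) (.x .i .i)) (.y (.x .i .i) .o)) .o) 6912 256 3584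
    512 = true := by decide +kernel

theorem dk63 : DOK 6144 1024 3072 1024 :=
  (dok_x (w' := 512) (X' := 6656) rfl rfl
  (dok_y (h' := 512) (Y' := 3584) rfl rfl
  (dok_x (w' := 256) (X' := 6400) rfl rfl
  (vbx_sound _ _ _ _ _ dr63_0)
  (vbx_sound _ _ _ _ _ dr63_1))
  (dok_x (w' := 256) (X' := 6400) rfl rfl
  (vbx_sound _ _ _ _ _ dr63_2)
  (vbx_sound _ _ _ _ _ dr63_3)))
  (dok_y (h' := 512) (Y' := 3584) rfl rfl
  (dok_x (w' := 256) (X' := 6912) rfl rfl
  (vbx_sound _ _ _ _ _ dr63_4)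
  (dok_y (h' := 256) (Y' := 3328) rfl rfl
  (vbx_sound _ _ _ _ _ dr63_5)
  (vbx_sound _ _ _ _ _ dr63_6)))
  (dok_x (w' := 256) (X' := 6912) rfl rfl
  (vbx_sound _ _ _ _ _ dr63_7)
  (vbx_sound _ _ _ _ _ dr63_8))))

theorem dr65_0 : vbx .o 6144 1024 5120 1024 = true := by decide +kernel

theorem dk65 : DOK 6144 1024 5120 1024 :=
  (vbx_sound _ _ _ _ _ dr65_0)

theorem dr66_0 : vbx .o 6144 1024 6144 1024 = true := by decide +kernel

theorem dk66 : DOK 6144 1024 6144 1024 :=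
  (vbx_sound _ _ _ _ _ dr66_0)

theorem dr74_0 : vbx .o 7168 1024 4096 1024 = true := by decide +kernel

theorem dk74 : DOK 7168 1024 4096 1024 :=
  (vbx_sound _ _ _ _ _ dr74_0)

theorem dr75_0 : vbx .o 7168 1024 5120 1024 = true := by decide +kernel

theorem dk75 : DOK 7168 1024 5120 1024 :=
  (vbx_sound _ _ _ _ _ dr75_0)

theorem dr76_0 : vbx .o 7168 1024 6144 1024 = true := by decide +kernel

theorem dk76 : DOK 7168 1024 6144 1024 :=
  (vbx_sound _ _ _ _ _ dr76_0)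

theorem dr77_0 : vbx .o 7168 1024 7168 1024 = true := by decide +kernel

theorem dk77 : DOK 7168 1024 7168 1024 :=
  (vbx_sound _ _ _ _ _ dr77_0)

end RicP
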