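import Pool.Agent.Helper95.Ric.DArith

set_option autoImplicit false

/-! # CERTD: run 3 (100 boxes) -/

namespace RicP

theorem dr11_0 : vbx (.x (.y (.x .i .i) .o) (.y (.x .i .i) (.x .i .i))) 1024 1024 1024 1024 =
    true := by decide +kernel

theorem dk11 : DOK 1024 1024 1024 1024 :=
  (vbx_sound _ _ _ _ _ dr11_0)

theorem dr22_0 : vbx (.x (.y (.x (.y .i .o) (.y .i .i)) .o) (.y (.x (.y .i .i) (.y .i .i)) (.x
    (.y .i .o) (.y .i .i)))) 2048 1024 2048 1024 = true := by decide +kernel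

theorem dk22 : DOK 2048 1024 2048 1024 :=
  (vbx_sound _ _ _ _ _ dr22_0)

theorem dr51_0 : vbx (.y (.x (.y .i .i) (.y .i .i)) (.x (.y .i (.x .i .i)) (.y (.x .i .i) (.x .i
    .i)))) 5120 512 1024 1024 = true := by decide +kernel

theorem dr51_1 : vbx (.x (.y .i .i) (.y .i (.x .i .i))) 5632 512 1024 512 = true :=
    by decide +kernel

theorem dr51_2 : vbx (.x (.y (.x .i .i) (.x .i .i)) (.y (.x .i .i) (.x .i .i))) 5632 512 1536
    512 = true := by decide +kernel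

theorem dk51 : DOK 5120 1024 1024 1024 :=
  (dok_x (w' := 512) (X' := 5632) rfl rfl
  (vbx_sound _ _ _ _ _ dr51_0)
  (dok_y (h' := 512) (Y' := 1536) rfl rfl
  (vbx_sound _ _ _ _ _ dr51_1)
  (vbx_sound _ _ _ _ _ dr51_2)))

theorem dr73_0 : vbx (.x (.y (.x .i .i) (.x .i .i)) (.y (.x .i .i) (.x .i .i))) 7168 256 3072
    256 = true := by decide +kernel

theorem dr73_1 : vbx (.x (.y (.x .i .i) (.x .i .i)) (.y (.x .i .i) (.x .i .i))) 7168 256 3328
    256 = true := by decide +kernel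

theorem dr73_2 : vbx (.x (.y (.x .i .i) (.x .i .i)) (.y (.x .i .i) (.x .i .i))) 7424 256 3072
    256 = true := by decide +kernel

theorem dr73_3 : vbx (.x (.y (.x .i .i) (.x .i .i)) (.y (.x .i .i) .o)) 7424 256 3328 256 = true
    := by decide +kernel

theorem dr73_4 : vbx (.x (.y (.x (.y (.x .i .i) .o) .o) .o) .o) 7168 512 3584 512 = true :=
    by decide +kernel

theorem dr73_5 : vbx (.x (.y (.x .i .i) (.x .i (.y .i .i))) (.y (.x .i (.y .i .i)) (.x (.y .i
    .i) (.y .i .i)))) 7680 256 3072 256 = true := by decide +kernel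

theorem dr73_6 : vbx (.x (.y (.x (.y .i .o) (.y .i .o)) .o) (.y (.x (.y .i .o) .o) .o)) 7680 256
    3328 256 = true := by decide +kernel

theorem dr73_7 : vbx (.y (.x (.y .i .i) (.y .i .i)) (.x (.y .i .i) (.y .i .o))) 7936 128 3072
    256 = true := by decide +kernel

theorem dr73_8 : vbx (.y (.x (.y .i .i) (.y .i .i)) (.x (.y .i .o) (.y (.x .i .o) .o))) 8064 128
    3072 256 = true := by decide +kernel

theorem dr73_9 : vbx .o 7936 256 3328 256 = true := by decide +kernel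

theorem dr73_10 : vbx .o 7680 512 3584 512 = true := by decide +kernel

theorem dk73 : DOK 7168 1024 3072 1024 :=
  (dok_x (w' := 512) (X' := 7680) rfl rfl
  (dok_y (h' := 512) (Y' := 3584) rfl rfl
  (dok_x (w' := 256) (X' := 7424) rfl rfl
  (dok_y (h' := 256) (Y' := 3328) rfl rfl
  (vbx_sound _ _ _ _ _ dr73_0)
  (vbx_sound _ _ _ _ _ dr73_1))
  (dok_y (h' := 256) (Y' := 3328) rfl rfl
  (vbx_sound _ _ _ _ _ dr73_2)
  (vbx_sound _ _ _ _ _ dr73_3)))
  (vbx_sound _ _ _ _ _ dr73_4))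
  (dok_y (h' := 512) (Y' := 3584) rfl rfl
  (dok_x (w' := 256) (X' := 7936) rfl rfl
  (dok_y (h' := 256) (Y' := 3328) rfl rfl
  (vbx_sound _ _ _ _ _ dr73_5)
  (vbx_sound _ _ _ _ _ dr73_6))
  (dok_y (h' := 256) (Y' := 3328) rfl rfl
  (dok_x (w' := 128) (X' := 8064) rfl rfl
  (vbx_sound _ _ _ _ _ dr73_7)
  (vbx_sound _ _ _ _ _ dr73_8))
  (vbx_sound _ _ _ _ _ dr73_9)))
  (vbx_sound _ _ _ _ _ dr73_10)))

end RicP
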