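import Pool.Agent.Helper95.Ric.DArith

set_option autoImplicit false

/-! # CERTD: run 4 (99 boxes) -/

namespace RicP

theorem dr50_0 : vbx (.x (.y (.x .i .i) (.x .i .i)) (.y (.x .i .i) (.x (.y .i .i) (.y .i .i))))
    5120 1024 0 1024 = true := by decide +kernel

theorem dk50 : DOK 5120 1024 0 1024 :=
  (vbx_sound _ _ _ _ _ dr50_0)

theorem dr53_0 : vbx (.x (.y (.x .i .i) (.x .i .i)) (.y (.x .i .i) (.x (.y .i .i) (.y .i .i))))
    5120 512 3072 512 = true := by decide +kernel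

theorem dr53_1 : vbx (.y (.x (.y .i .i) (.y .i .i)) (.x (.y .i .i) (.y .i .i))) 5120 256 3584
    512 = true := by decide +kernel

theorem dr53_2 : vbx (.y (.x (.y .i .i) (.y .i .i)) (.x (.y .i .i) (.y .i .i))) 5376 256 3584
    512 = true := by decide +kernel

theorem dr53_3 : vbx (.y (.x .i .i) (.x (.y .i .i) (.y .i .i))) 5632 256 3072 512 = true :=
    by decide +kernel

theorem dr53_4 : vbx (.y (.x (.y .i .i) (.y .i .i)) (.x (.y .i .i) (.y .i .i))) 5888 256 3072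
    512 = true := by decide +kernel

theorem dr53_5 : vbx (.y (.x (.y .i .i) (.y .i .i)) (.x (.y .i .i) (.y .i .i))) 5632 256 3584
    512 = true := by decide +kernel

theorem dr53_6 : vbx (.y (.x (.y .i .i) (.y .i .i)) (.x (.y .i .i) (.y .i .i))) 5888 256 3584
    512 = true := by decide +kernel

theorem dk53 : DOK 5120 1024 3072 1024 :=
  (dok_x (w' := 512) (X' := 5632) rfl rfl
  (dok_y (h' := 512) (Y' := 3584) rfl rfl
  (vbx_sound _ _ _ _ _ dr53_0)
  (dok_x (w' := 256) (X' := 5376) rfl rfl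
  (vbx_sound _ _ _ _ _ dr53_1)
  (vbx_sound _ _ _ _ _ dr53_2)))
  (dok_y (h' := 512) (Y' := 3584) rfl rfl
  (dok_x (w' := 256) (X' := 5888) rfl rfl
  (vbx_sound _ _ _ _ _ dr53_3)
  (vbx_sound _ _ _ _ _ dr53_4))
  (dok_x (w' := 256) (X' := 5888) rfl rfl
  (vbx_sound _ _ _ _ _ dr53_5)
  (vbx_sound _ _ _ _ _ dr53_6))))

theorem dr64_0 : vbx (.x (.y (.x (.y (.x (.y .i (.x .i .o)) (.y (.x .i .i) .o)) .o) .o) .o) .o)
    6144 1024 4096 1024 = true := by decide +kernel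

theorem dk64 : DOK 6144 1024 4096 1024 :=
  (vbx_sound _ _ _ _ _ dr64_0)

theorem dr70_0 : vbx (.x (.y .i .i) (.y .i (.x .i .i))) 7168 512 0 512 = true :=
    by decide +kernel

theorem dr70_1 : vbx (.x (.y (.x .i .i) (.x .i .i)) (.y (.x .i .i) (.x .i .i))) 7168 512 512 512
    = true := by decide +kernel

theorem dr70_2 : vbx (.x (.y (.x .i .i) (.x .i .i)) (.y (.x .i .i) (.x .i .i))) 7680 512 0 512 =
    true := by decide +kernel

theorem dr70_3 : vbx (.x (.y (.x .i .i) (.x .i .i)) (.y (.x .i .i) (.x .i .i))) 7680 512 512 512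
    = true := by decide +kernel

theorem dk70 : DOK 7168 1024 0 1024 :=
  (dok_x (w' := 512) (X' := 7680) rfl rfl
  (dok_y (h' := 512) (Y' := 512) rfl rfl
  (vbx_sound _ _ _ _ _ dr70_0)
  (vbx_sound _ _ _ _ _ dr70_1))
  (dok_y (h' := 512) (Y' := 512) rfl rfl
  (vbx_sound _ _ _ _ _ dr70_2)
  (vbx_sound _ _ _ _ _ dr70_3)))

end RicP
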