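import Pool.Agent.Helper95.Ric.DArith

set_option autoImplicit false

/-! # CERTD: run 5 (98 boxes) -/

namespace RicP

theorem dr30_0 : vbx (.x (.y (.x .i .i) (.x .i .i)) (.y (.x .i .i) (.x .i .i))) 3072 1024 0 1024
    = true := by decide +kernel

theorem dk30 : DOK 3072 1024 0 1024 :=
  (vbx_sound _ _ _ _ _ dr30_0)

theorem dr41_0 : vbx (.y (.x .i (.y .i .i)) (.x (.y .i .i) (.y .i .i))) 4096 512 1024 1024 =
    true := by decide +kernel

theorem dr41_1 : vbx (.y (.x (.y .i .i) (.y .i .i)) (.x (.y .i .i) (.y .i (.x .i .i)))) 4608 512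
    1024 1024 = true := by decide +kernel

theorem dk41 : DOK 4096 1024 1024 1024 :=
  (dok_x (w' := 512) (X' := 4608) rfl rfl
  (vbx_sound _ _ _ _ _ dr41_0)
  (vbx_sound _ _ _ _ _ dr41_1))

theorem dr61_0 : vbx (.x (.y .i (.x .i .i)) (.y (.x .i .i) (.x .i .i))) 6144 512 1024 512 = true
    := by decide +kernel

theorem dr61_1 : vbx (.x (.y (.x .i .i) (.x .i .i)) (.y (.x .i .i) (.x .i .i))) 6144 512 1536
    512 = true := by decide +kernel

theorem dr61_2 : vbx (.x (.y (.x .i .i) (.x .i .i)) (.y (.x .i .i) (.x .i .i))) 6656 512 1024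
    512 = true := by decide +kernel

theorem dr61_3 : vbx (.x (.y (.x .i .i) (.x .i .i)) (.y (.x .i .i) (.x .i .i))) 6656 512 1536
    512 = true := by decide +kernel

theorem dk61 : DOK 6144 1024 1024 1024 :=
  (dok_x (w' := 512) (X' := 6656) rfl rfl
  (dok_y (h' := 512) (Y' := 1536) rfl rfl
  (vbx_sound _ _ _ _ _ dr61_0)
  (vbx_sound _ _ _ _ _ dr61_1))
  (dok_y (h' := 512) (Y' := 1536) rfl rfl
  (vbx_sound _ _ _ _ _ dr61_2)
  (vbx_sound _ _ _ _ _ dr61_3)))

theorem dr62_0 : vbx (.x (.y (.x .i .i) (.x .i .i)) (.y (.x .i .i) (.x .i .i))) 6144 512 2048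
    512 = true := by decide +kernel

theorem dr62_1 : vbx (.x (.y (.x .i .i) (.x .i (.y .i .i))) (.y (.x .i .i) (.x (.y .i .i) (.y .i
    .i)))) 6144 512 2560 512 = true := by decide +kernel

theorem dr62_2 : vbx (.x (.y (.x .i .i) (.x .i .i)) (.y (.x .i .i) (.x .i .i))) 6656 512 2048
    512 = true := by decide +kernel

theorem dr62_3 : vbx (.y (.x (.y .i .i) (.y .i .i)) (.x (.y .i .i) (.y .i .i))) 6656 256 2560
    512 = true := by decide +kernel

theorem dr62_4 : vbx (.y (.x (.y .i .i) (.y .i .i)) (.x (.y .i .i) (.y .i .i))) 6912 256 2560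
    512 = true := by decide +kernel

theorem dk62 : DOK 6144 1024 2048 1024 :=
  (dok_x (w' := 512) (X' := 6656) rfl rfl
  (dok_y (h' := 512) (Y' := 2560) rfl rfl
  (vbx_sound _ _ _ _ _ dr62_0)
  (vbx_sound _ _ _ _ _ dr62_1))
  (dok_y (h' := 512) (Y' := 2560) rfl rfl
  (vbx_sound _ _ _ _ _ dr62_2)
  (dok_x (w' := 256) (X' := 6912) rfl rfl
  (vbx_sound _ _ _ _ _ dr62_3)
  (vbx_sound _ _ _ _ _ dr62_4))))

end RicP
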