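import Pool.Agent.Helper95.Ric.DArith

set_option autoImplicit false

/-! # CERTD: run 6 (100 boxes) -/

namespace RicP

theorem dr32_0 : vbx (.y (.x (.y .i .i) (.y .i .i)) (.x (.y .i .i) (.y .i .i))) 3072 512 2048
    1024 = true := by decide +kernel

theorem dr32_1 : vbx (.y (.x (.y .i .i) (.y .i .i)) (.x (.y .i (.x .i .i)) (.y (.x .i .i) (.x .i
    .i)))) 3584 512 2048 1024 = true := by decide +kernel

theorem dk32 : DOK 3072 1024 2048 1024 :=
  (dok_x (w' := 512) (X' := 3584) rfl rfl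
  (vbx_sound _ _ _ _ _ dr32_0)
  (vbx_sound _ _ _ _ _ dr32_1))

theorem dr40_0 : vbx (.x (.y (.x .i .i) (.x .i .i)) (.y (.x .i .i) (.x .i .i))) 4096 1024 0 1024
    = true := by decide +kernel

theorem dk40 : DOK 4096 1024 0 1024 :=
  (vbx_sound _ _ _ _ _ dr40_0)

theorem dr42_0 : vbx (.x (.y .i (.x .i .i)) (.y .i (.x .i .i))) 4096 512 2048 512 = true :=
    by decide +kernel

theorem dr42_1 : vbx (.x (.y (.x .i .i) (.x .i .i)) (.y (.x .i .i) (.x .i .i))) 4096 512 2560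
    512 = true := by decide +kernel

theorem dr42_2 : vbx (.x (.y (.x .i .i) (.x .i .i)) (.y (.x .i .i) (.x .i .i))) 4608 512 2048
    512 = true := by decide +kernel

theorem dr42_3 : vbx (.x (.y (.x .i .i) (.x .i .i)) (.y (.x .i .i) (.x .i .i))) 4608 512 2560
    512 = true := by decide +kernel

theorem dk42 : DOK 4096 1024 2048 1024 :=
  (dok_x (w' := 512) (X' := 4608) rfl rfl
  (dok_y (h' := 512) (Y' := 2560) rfl rfl
  (vbx_sound _ _ _ _ _ dr42_0)
  (vbx_sound _ _ _ _ _ dr42_1))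
  (dok_y (h' := 512) (Y' := 2560) rfl rfl
  (vbx_sound _ _ _ _ _ dr42_2)
  (vbx_sound _ _ _ _ _ dr42_3)))

theorem dr71_0 : vbx (.x (.y (.x .i .i) (.x .i .i)) (.y (.x .i .i) (.x .i .i))) 7168 512 1024
    512 = true := by decide +kernel

theorem dr71_1 : vbx (.x (.y (.x .i .i) (.x .i .i)) (.y (.x .i .i) (.x .i .i))) 7168 512 1536
    512 = true := by decide +kernel

theorem dr71_2 : vbx (.x (.y (.x .i .i) (.x .i .i)) (.y (.x .i (.y .i .i)) (.x (.y .i .i) (.y .i
    .i)))) 7680 512 1024 512 = true := by decide +kernel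

theorem dr71_3 : vbx (.y (.x .i .i) (.x (.y .i .i) (.y .i .i))) 7680 256 1536 512 = true :=
    by decide +kernel

theorem dr71_4 : vbx (.y (.x (.y .i .i) (.y .i .i)) (.x (.y .i .i) (.y (.x .i .i) (.x .i .i))))
    7936 256 1536 512 = true := by decide +kernel

theorem dk71 : DOK 7168 1024 1024 1024 :=
  (dok_x (w' := 512) (X' := 7680) rfl rfl
  (dok_y (h' := 512) (Y' := 1536) rfl rfl
  (vbx_sound _ _ _ _ _ dr71_0)
  (vbx_sound _ _ _ _ _ dr71_1))
  (dok_y (h' := 512) (Y' := 1536) rfl rfl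
  (vbx_sound _ _ _ _ _ dr71_2)
  (dok_x (w' := 256) (X' := 7936) rfl rfl
  (vbx_sound _ _ _ _ _ dr71_3)
  (vbx_sound _ _ _ _ _ dr71_4))))

end RicP
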