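import Pool.Agent.Helper95.Ric.DArith

set_option autoImplicit false

/-! # CERTD: run 7 (99 boxes) -/

namespace RicP

theorem dr10_0 : vbx (.x (.y .i (.x .i .i)) (.y (.x .i .i) (.x .i .i))) 1024 1024 0 1024 = true
    := by decide +kernel

theorem dk10 : DOK 1024 1024 0 1024 :=
  (vbx_sound _ _ _ _ _ dr10_0)

theorem dr33_0 : vbx (.y (.x (.y .i .o) (.y (.x .i .i) (.x .i .i))) .o) 3072 512 3072 1024 =
    true := by decide +kernel

theorem dr33_1 : vbx (.x (.y (.x .i .i) (.x .i .i)) (.y (.x .i .i) (.x .i .i))) 3584 512 3072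
    512 = true := by decide +kernel

theorem dr33_2 : vbx (.x (.y (.x .i .i) .o) (.y (.x .i .i) (.x .i .i))) 3584 512 3584 512 = true
    := by decide +kernel

theorem dk33 : DOK 3072 1024 3072 1024 :=
  (dok_x (w' := 512) (X' := 3584) rfl rfl
  (vbx_sound _ _ _ _ _ dr33_0)
  (dok_y (h' := 512) (Y' := 3584) rfl rfl
  (vbx_sound _ _ _ _ _ dr33_1)
  (vbx_sound _ _ _ _ _ dr33_2)))

theorem dr43_0 : vbx (.x (.y (.x .i .i) (.x .i .i)) (.y (.x .i .i) (.x .i .i))) 4096 512 3072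
    512 = true := by decide +kernel

theorem dr43_1 : vbx (.x (.y (.x .i .i) (.x .i (.y .i .i))) (.y (.x .i .i) (.x (.y .i .i) (.y .i
    .i)))) 4096 512 3584 512 = true := by decide +kernel

theorem dr43_2 : vbx (.x (.y (.x .i .i) (.x .i .i)) (.y (.x .i .i) (.x .i .i))) 4608 512 3072
    512 = true := by decide +kernel

theorem dr43_3 : vbx (.y (.x .i .i) (.x (.y .i .i) (.y .i .i))) 4608 256 3584 512 = true :=
    by decide +kernel

theorem dr43_4 : vbx (.y (.x (.y .i .i) (.y .i .i)) (.x (.y .i .i) (.y .i .i))) 4864 256 3584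
    512 = true := by decide +kernel

theorem dk43 : DOK 4096 1024 3072 1024 :=
  (dok_x (w' := 512) (X' := 4608) rfl rfl
  (dok_y (h' := 512) (Y' := 3584) rfl rfl
  (vbx_sound _ _ _ _ _ dr43_0)
  (vbx_sound _ _ _ _ _ dr43_1))
  (dok_y (h' := 512) (Y' := 3584) rfl rfl
  (vbx_sound _ _ _ _ _ dr43_2)
  (dok_x (w' := 256) (X' := 4864) rfl rfl
  (vbx_sound _ _ _ _ _ dr43_3)
  (vbx_sound _ _ _ _ _ dr43_4))))

theorem dr52_0 : vbx (.x (.y (.x .i .i) (.x .i .i)) (.y (.x .i .i) (.x .i .i))) 5120 512 2048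
    512 = true := by decide +kernel

theorem dr52_1 : vbx (.x (.y (.x .i .i) (.x .i .i)) (.y (.x .i .i) (.x .i .i))) 5120 512 2560
    512 = true := by decide +kernel

theorem dr52_2 : vbx (.x (.y (.x .i .i) (.x .i .i)) (.y (.x .i .i) (.x .i .i))) 5632 512 2048
    512 = true := by decide +kernel

theorem dr52_3 : vbx (.x (.y (.x .i .i) (.x .i .i)) (.y (.x .i .i) (.x .i .i))) 5632 512 2560
    512 = true := by decide +kernel

theorem dk52 : DOK 5120 1024 2048 1024 :=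
  (dok_x (w' := 512) (X' := 5632) rfl rfl
  (dok_y (h' := 512) (Y' := 2560) rfl rfl
  (vbx_sound _ _ _ _ _ dr52_0)
  (vbx_sound _ _ _ _ _ dr52_1))
  (dok_y (h' := 512) (Y' := 2560) rfl rfl
  (vbx_sound _ _ _ _ _ dr52_2)
  (vbx_sound _ _ _ _ _ dr52_3)))

end RicP
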