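import Pool.Agent.Helper95.Ric.DArith

set_option autoImplicit false

/-! # CERTD: run 8 (100 boxes) -/

namespace RicP

theorem dr00_0 : vbx (.x (.y .i .o) (.y .i .i)) 0 1024 0 1024 = true := by decide +kernel

theorem dk00 : DOK 0 1024 0 1024 :=
  (vbx_sound _ _ _ _ _ dr00_0)

theorem dr21_0 : vbx (.x (.y (.x .i .i) (.x .i .i)) (.y (.x .i .i) (.x .i (.y .i .i)))) 2048
    1024 1024 1024 = true := by decide +kernel

theorem dk21 : DOK 2048 1024 1024 1024 :=
  (vbx_sound _ _ _ _ _ dr21_0)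

theorem dr31_0 : vbx (.x (.y (.x .i .i) (.x (.y .i .i) (.y .i .i))) (.y (.x .i .i) (.x (.y .i
    .i) (.y .i .i)))) 3072 1024 1024 1024 = true := by decide +kernel

theorem dk31 : DOK 3072 1024 1024 1024 :=
  (vbx_sound _ _ _ _ _ dr31_0)

theorem dr44_0 : vbx (.y (.x (.y (.x (.y .i .o) (.y .i .i)) .o) (.y (.x (.y .i .i) (.y .i .i))
    (.x (.y .i .o) (.y .i .i)))) .o) 4096 512 4096 1024 = true := by decide +kernel

theorem dr44_1 : vbx (.y (.x (.y .i .i) (.y .i .i)) (.x (.y .i .i) (.y .i .i))) 4608 256 4096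
    512 = true := by decide +kernel

theorem dr44_2 : vbx (.y (.x (.y .i .i) (.y .i .i)) (.x (.y .i .i) (.y .i .i))) 4864 256 4096
    512 = true := by decide +kernel

theorem dr44_3 : vbx (.x (.y (.x (.y .i .o) (.y .i .i)) .o) (.y (.x (.y .i .i) (.y .i .i)) (.x
    (.y .i .o) (.y .i .i)))) 4608 512 4608 512 = true := by decide +kernel

theorem dk44 : DOK 4096 1024 4096 1024 :=
  (dok_x (w' := 512) (X' := 4608) rfl rfl
  (vbx_sound _ _ _ _ _ dr44_0)
  (dok_y (h' := 512) (Y' := 4608) rfl rfl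
  (dok_x (w' := 256) (X' := 4864) rfl rfl
  (vbx_sound _ _ _ _ _ dr44_1)
  (vbx_sound _ _ _ _ _ dr44_2))
  (vbx_sound _ _ _ _ _ dr44_3)))

theorem dr54_0 : vbx (.y (.x (.y .i .i) (.y .i .i)) (.x (.y .i .i) (.y .i .i))) 5120 256 4096
    512 = true := by decide +kernel

theorem dr54_1 : vbx (.y (.x (.y .i .i) (.y .i .i)) (.x (.y .i .i) (.y .i .i))) 5376 256 4096
    512 = true := by decide +kernel

theorem dr54_2 : vbx (.x (.y (.x (.y .i .i) (.y .i .i)) (.x (.y .i .i) (.y .i .o))) (.y (.x (.y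
    .i .i) (.y .i .o)) .o)) 5120 512 4608 512 = true := by decide +kernel

theorem dr54_3 : vbx (.y (.x (.y .i .i) (.y .i .i)) (.x (.y .i .i) (.y .i .i))) 5632 256 4096
    512 = true := by decide +kernel

theorem dr54_4 : vbx (.y (.x (.y .i .i) (.y .i .i)) (.x (.y .i .o) .o)) 5888 256 4096 512 = true
    := by decide +kernel

theorem dr54_5 : vbx (.x (.y (.x (.y .i .o) .o) .o) .o) 5632 512 4608 512 = true :=
    by decide +kernel

theorem dk54 : DOK 5120 1024 4096 1024 :=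
  (dok_x (w' := 512) (X' := 5632) rfl rfl
  (dok_y (h' := 512) (Y' := 4608) rfl rfl
  (dok_x (w' := 256) (X' := 5376) rfl rfl
  (vbx_sound _ _ _ _ _ dr54_0)
  (vbx_sound _ _ _ _ _ dr54_1))
  (vbx_sound _ _ _ _ _ dr54_2))
  (dok_y (h' := 512) (Y' := 4608) rfl rfl
  (dok_x (w' := 256) (X' := 5888) rfl rfl
  (vbx_sound _ _ _ _ _ dr54_3)
  (vbx_sound _ _ _ _ _ dr54_4))
  (vbx_sound _ _ _ _ _ dr54_5)))

end RicP
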