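import Pool.Agent.Helper95.Ric.DRun1
import Pool.Agent.Helper95.Ric.DRun2
import Pool.Agent.Helper95.Ric.DRun3
import Pool.Agent.Helper95.Ric.DRun4
import Pool.Agent.Helper95.Ric.DRun5
import Pool.Agent.Helper95.Ric.DRun6
import Pool.Agent.Helper95.Ric.DRun7
import Pool.Agent.Helper95.Ric.DRun8

set_option autoImplicit false

/-! # CERTD: the certificate -/

namespace RicP

theorem dok_all (i j : ℕ) (hi : i < 8) (hj : j ≤ i) : DOK (1024 * i) 1024 (1024 * j) 1024 := by
  interval_cases i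
  · interval_cases j
    exact dk00
  · interval_cases j
    exacts [dk10, dk11]
  · interval_cases j
    exacts [dk20, dk21, dk22]
  · interval_cases j
    exacts [dk30, dk31, dk32, dk33]
  · interval_cases j
    exacts [dk40, dk41, dk42, dk43, dk44]
  · interval_cases j
    exacts [dk50, dk51, dk52, dk53, dk54, dk55]
  · interval_cases j
    exacts [dk60, dk61, dk62, dk63, dk64, dk65, dk66]
  · interval_cases j
    exacts [dk70, dk71, dk72, dk73, dk74, dk75, dk76, dk77]

/-- the half `y ≤ x` -/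
theorem certd_low {x y : ℝ} (hx : 0 ≤ x) (hy : 0 ≤ y) (hx1 : x < 65 / 64) (hyx : y ≤ x)
    (hxy : x * y < 2 / 5) : (tenD x y).Cond := by
  have key : ∀ z : ℝ, 0 ≤ z → 65 / 524288 * (((1024 * ⌊z * (512 / 65)⌋₊ : ℕ)) : ℝ) ≤ z ∧
      z < 65 / 524288 * ((((1024 * ⌊z * (512 / 65)⌋₊ : ℕ)) : ℝ) + ((1024 : ℕ) : ℝ)) := by
    intro z hz
    have h1 := Nat.floor_le (a := z * (512 / 65)) (by positivity)
    have h2 := Nat.lt_floor_add_one (z * (512 / 65))
    constructor
    · push_cast
      linarith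
    · push_cast
      linarith
  obtain ⟨a1, a2⟩ := key x hx
  obtain ⟨b1, b2⟩ := key y hy
  have hi : ⌊x * (512 / 65)⌋₊ < 8 := by
    rw [Nat.floor_lt (by positivity)]
    push_cast
    linarith
  have hj : ⌊y * (512 / 65)⌋₊ ≤ ⌊x * (512 / 65)⌋₊ := Nat.floor_mono (by linarith)
  exact dok_all _ _ hi hj x y a1 a2 b1 b2 hyx hxy

theorem st_CERTD : ST_CERTD := by
  intro x y hx hy hx1 hy1 hxy
  rcases le_total y x with h | h
  · exact certd_low hx hy hx1 h hxy
  · exact certd_sym _ _ (certd_low hy hx hy1 h (by linarith))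

end RicP
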