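import Pool.Agent.Helper95.Ric.DProg
import Pool.Agent.Helper88.Ric.TM

set_option autoImplicit false

/-!
# CERTD: the arithmetic and the verifier
-/

namespace RicP

/-- the arithmetic of the affine enclosures -/
def tmA : Ari TM where
  num := TM.cst
  add := TM.add
  sub := TM.sub
  mul := TM.mul
  sq := TM.sq
  smu := TM.nsm
  inv := TM.inv
  tail := fun t => TM.fat t 109951163
  pos := TM.posB

theorem tmA_sound {u v : ℝ} (hu : |u| ≤ 1) (hv : |v| ≤ 1) :
    Sound tmA (fun t f => TM.Enc t u v f) where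
  num := fun n => TM.enc_cst hu hv n
  add := fun h1 h2 => TM.enc_add h1 h2
  sub := fun h1 h2 => TM.enc_sub h1 h2
  mul := fun h1 h2 => TM.enc_mul h1 h2
  sq := fun {s f} h => by
    rw [pow_two]
    exact TM.enc_sq h
  smu := fun n _ _ h => TM.enc_nsm n h
  inv := fun hp h => (TM.enc_inv h hp).2
  tail := fun {s f r} h h0 h1 => by
    refine TM.enc_fat h ?_
    rw [add_sub_cancel_left, abs_of_nonneg h0]
    push_cast
    linarith
  pos := fun hp h => (TM.enc_inv h hp).1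

/-- enclosure of the first coordinate -/
def tmx (X w : ℕ) : TM :=
  TM.mk (Nat.mul 68157440 (Nat.add (Nat.mul 2 X) w)) 0 (Nat.mul 68157440 w) 0 0 0 0

/-- enclosure of the second coordinate -/
def tmy (Y h : ℕ) : TM :=
  TM.mk (Nat.mul 68157440 (Nat.add (Nat.mul 2 Y) h)) 0 0 0 (Nat.mul 68157440 h) 0 0

theorem tmx_enc {X w : ℕ} {u v : ℝ} (hu : |u| ≤ 1) (hv : |v| ≤ 1) :
    TM.Enc (tmx X w) u v (65 / 524288 * (X + w * (1 + u) / 2)) := by
  refine ⟨hu, hv, ?_⟩
  simp only [tmx, Nat.mul_eq, Nat.add_eq, Nat.cast_mul, Nat.cast_add, Nat.cast_ofNat,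
    Nat.cast_zero]
  have : (65 / 524288 * ((X : ℝ) + w * (1 + u) / 2)) * 1099511627776 -
      ((68157440 * (2 * (X : ℝ) + w) - 0) + (68157440 * (w : ℝ) - 0) * u + (0 - 0) * v) = 0 := by
    ring
  rw [this, abs_zero]

theorem tmy_enc {Y h : ℕ} {u v : ℝ} (hu : |u| ≤ 1) (hv : |v| ≤ 1) :
    TM.Enc (tmy Y h) u v (65 / 524288 * (Y + h * (1 + v) / 2)) := by
  refine ⟨hu, hv, ?_⟩
  simp only [tmy, Nat.mul_eq, Nat.add_eq, Nat.cast_mul, Nat.cast_add, Nat.cast_ofNat,
    Nat.cast_zero]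
  have : (65 / 524288 * ((Y : ℝ) + h * (1 + v) / 2)) * 1099511627776 -
      ((68157440 * (2 * (Y : ℝ) + h) - 0) + (0 - 0) * u + (68157440 * (h : ℝ) - 0) * v) = 0 := by
    ring
  rw [this, abs_zero]

/-- the statement for a box -/
def DOK (X w Y h : ℕ) : Prop :=
  ∀ x y : ℝ, 65 / 524288 * X ≤ x → x < 65 / 524288 * (X + w) →
    65 / 524288 * Y ≤ y → y < 65 / 524288 * (Y + h) → y ≤ x → x * y < 2 / 5 → (tenD x y).Cond

/-- coordinates in a box -/
theorem dcoord {X w : ℕ} {x : ℝ} (hw : 0 < w) (h1 : 65 / 524288 * X ≤ x)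
    (h2 : x < 65 / 524288 * (X + w)) :
    ∃ u : ℝ, |u| ≤ 1 ∧ x = 65 / 524288 * (X + w * (1 + u) / 2) := by
  have hw' : (0 : ℝ) < w := by exact_mod_cast hw
  refine ⟨(x * (524288 / 65) - X) * 2 / w - 1, ?_, ?_⟩
  · rw [abs_le]
    constructor
    · have : 0 ≤ (x * (524288 / 65) - X) * 2 / w := by
        apply div_nonneg _ hw'.le
        linarith
      linarith
    · have : (x * (524288 / 65) - X) * 2 / w ≤ 2 := by
        rw [div_le_iff₀ hw']
        linarith
      linarith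
  · field_simp
    ring

theorem dok_leaf {X w Y h : ℕ} (hw : 0 < w) (hh : 0 < h) (hX : X + w ≤ 8192)
    (hc : cchk tmA (tmx X w) (tmy Y h) = true) : DOK X w Y h := by
  intro x y h1 h2 h3 h4 h5 h6
  obtain ⟨u, hu, hxu⟩ := dcoord hw h1 h2
  obtain ⟨v, hv, hyv⟩ := dcoord hh h3 h4
  have hX' : (X : ℝ) + w ≤ 8192 := by exact_mod_cast hX
  have hX0 : (0 : ℝ) ≤ X := Nat.cast_nonneg X
  have hY0 : (0 : ℝ) ≤ Y := Nat.cast_nonneg Y
  have hx0 : 0 ≤ x := le_trans (by positivity) h1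
  have hy0 : 0 ≤ y := le_trans (by positivity) h3
  have hx1 : x ≤ 65 / 64 := by linarith
  refine cchk_sound (tmA_sound hu hv) (x := tmx X w) (y := tmy Y h) ?_ ?_ hx0 hy0 hx1 h5 h6.le hc
  · rw [hxu]
    exact tmx_enc hu hv
  · rw [hyv]
    exact tmy_enc hu hv

theorem dok_skip1 {X w Y h : ℕ} (hs : X + w ≤ Y) : DOK X w Y h := by
  intro x y h1 h2 h3 h4 h5 h6
  have hs' : (X : ℝ) + w ≤ Y := by exact_mod_cast hs
  linarith

theorem dok_skip2 {X w Y h : ℕ} (hs : 549755813888 ≤ 21125 * (X * Y)) : DOK X w Y h := by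
  intro x y h1 h2 h3 h4 h5 h6
  have hs' : (549755813888 : ℝ) ≤ 21125 * (X * Y) := by exact_mod_cast hs
  have hX0 : (0 : ℝ) ≤ X := Nat.cast_nonneg X
  have hY0 : (0 : ℝ) ≤ Y := Nat.cast_nonneg Y
  have h7 : (65 / 524288 * (X : ℝ)) * (65 / 524288 * Y) ≤ x * y :=
    mul_le_mul h1 h3 (by positivity) (le_trans (by positivity) h1)
  linarith

theorem dok_x {X X' w w' Y h : ℕ} (e1 : w = 2 * w') (e2 : X' = X + w') (h1 : DOK X w' Y h)
    (h2 : DOK X' w' Y h) : DOK X w Y h := by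
  subst e1 e2
  intro x y a1 a2 a3 a4 a5 a6
  push_cast at a2
  by_cases hx : x < 65 / 524288 * (X + w')
  · exact h1 x y a1 hx a3 a4 a5 a6
  · push Not at hx
    refine h2 x y ?_ ?_ a3 a4 a5 a6
    · push_cast
      exact hx
    · push_cast
      linarith

theorem dok_y {X w Y Y' h h' : ℕ} (e1 : h = 2 * h') (e2 : Y' = Y + h') (h1 : DOK X w Y h')
    (h2 : DOK X w Y' h') : DOK X w Y h := by
  subst e1 e2
  intro x y a1 a2 a3 a4 a5 a6
  push_cast at a4
  by_cases hy : y < 65 / 524288 * (Y + h')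
  · exact h1 x y a1 a2 a3 hy a5 a6
  · push Not at hy
    refine h2 x y a1 a2 ?_ ?_ a5 a6
    · push_cast
      exact hy
    · push_cast
      linarith

/-- trees of boxes -/
inductive DTree where
  | o : DTree
  | i : DTree
  | x : DTree → DTree → DTree
  | y : DTree → DTree → DTree

/-- verification of a tree -/
noncomputable def vbx (t : DTree) : ℕ → ℕ → ℕ → ℕ → Bool :=
  DTree.rec (motive := fun _ => ℕ → ℕ → ℕ → ℕ → Bool)
    (fun X w Y _ => cond (Nat.ble (Nat.add X w) Y) true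
      (Nat.ble 549755813888 (Nat.mul 21125 (Nat.mul X Y))))
    (fun X w Y h => cond (Nat.ble 1 w) (cond (Nat.ble 1 h) (cond (Nat.ble (Nat.add X w) 8192)
      (cchk tmA (tmx X w) (tmy Y h)) false) false) false)
    (fun _ _ r1 r2 X w Y h => cond (Nat.beq w (Nat.mul 2 (Nat.div w 2)))
      (cond (r1 X (Nat.div w 2) Y h) (r2 (Nat.add X (Nat.div w 2)) (Nat.div w 2) Y h) false)
      false)
    (fun _ _ r1 r2 X w Y h => cond (Nat.beq h (Nat.mul 2 (Nat.div h 2)))
      (cond (r1 X w Y (Nat.div h 2)) (r2 X w (Nat.add Y (Nat.div h 2)) (Nat.div h 2)) false)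
      false) t

theorem cond_t {a b : Bool} (h : cond a b false = true) : a = true ∧ b = true := by
  cases a
  · exact absurd h Bool.false_ne_true
  · exact ⟨rfl, h⟩

theorem vbx_x (l r : DTree) (X w Y h : ℕ) : vbx (DTree.x l r) X w Y h =
    cond (Nat.beq w (Nat.mul 2 (Nat.div w 2)))
      (cond (vbx l X (Nat.div w 2) Y h) (vbx r (Nat.add X (Nat.div w 2)) (Nat.div w 2) Y h) false)
      false := rfl

theorem vbx_y (l r : DTree) (X w Y h : ℕ) : vbx (DTree.y l r) X w Y h =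
    cond (Nat.beq h (Nat.mul 2 (Nat.div h 2)))
      (cond (vbx l X w Y (Nat.div h 2)) (vbx r X w (Nat.add Y (Nat.div h 2)) (Nat.div h 2)) false)
      false := rfl

theorem vbx_o (X w Y h : ℕ) : vbx DTree.o X w Y h = cond (Nat.ble (Nat.add X w) Y) true
      (Nat.ble 549755813888 (Nat.mul 21125 (Nat.mul X Y))) := rfl

theorem vbx_i (X w Y h : ℕ) : vbx DTree.i X w Y h =
    cond (Nat.ble 1 w) (cond (Nat.ble 1 h) (cond (Nat.ble (Nat.add X w) 8192)
      (cchk tmA (tmx X w) (tmy Y h)) false) false) false := rfl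

theorem vbx_sound (t : DTree) : ∀ X w Y h : ℕ, vbx t X w Y h = true → DOK X w Y h := by
  induction t with
  | o =>
    intro X w Y h hv
    rw [vbx_o] at hv
    cases hb : Nat.ble (Nat.add X w) Y with
    | true => exact dok_skip1 (Nat.le_of_ble_eq_true hb)
    | false =>
      rw [hb, cond_false] at hv
      exact dok_skip2 (Nat.le_of_ble_eq_true hv)
  | i =>
    intro X w Y h hv
    rw [vbx_i] at hv
    obtain ⟨h1, hv⟩ := cond_t hv
    obtain ⟨h2, hv⟩ := cond_t hv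
    obtain ⟨h3, hv⟩ := cond_t hv
    exact dok_leaf (Nat.le_of_ble_eq_true h1) (Nat.le_of_ble_eq_true h2)
      (Nat.le_of_ble_eq_true h3) hv
  | x l r ihl ihr =>
    intro X w Y h hv
    rw [vbx_x] at hv
    obtain ⟨h1, hv⟩ := cond_t hv
    obtain ⟨h2, hv⟩ := cond_t hv
    exact dok_x (w' := Nat.div w 2) (X' := Nat.add X (Nat.div w 2)) (Nat.eq_of_beq_eq_true h1) rfl
      (ihl _ _ _ _ h2) (ihr _ _ _ _ hv)
  | y l r ihl ihr =>
    intro X w Y h hv
    rw [vbx_y] at hv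
    obtain ⟨h1, hv⟩ := cond_t hv
    obtain ⟨h2, hv⟩ := cond_t hv
    exact dok_y (h' := Nat.div h 2) (Y' := Nat.add Y (Nat.div h 2)) (Nat.eq_of_beq_eq_true h1) rfl
      (ihl _ _ _ _ h2) (ihr _ _ _ _ hv)

end RicP
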