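import Pool.Agent.Helper88.Ric.Stmts

set_option autoImplicit false

/-!
# CERTD: symmetry `x ↔ y` and the centred logarithm formula
-/

noncomputable section

namespace RicP

open Finset

/-! ### symmetry of the condition -/

/-- exchange of the two coordinates -/
def Ten.swp (t : Ten) : Ten :=
  ![t 2, t 1, t 0, t 8, t 7, t 6, t 5, t 4, t 3, t 14, t 13, t 11, t 12, t 10, t 9]

theorem Ten.cond_swp (t : Ten) (h : t.Cond) : t.swp.Cond := by
  obtain ⟨h0, hdet, hDD, hDO, hII⟩ := h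
  have e0 : t.swp 0 = t 2 := rfl
  have e1 : t.swp 1 = t 1 := rfl
  have e2 : t.swp 2 = t 0 := rfl
  have e3 : t.swp 3 = t 8 := rfl
  have e4 : t.swp 4 = t 7 := rfl
  have e5 : t.swp 5 = t 6 := rfl
  have e6 : t.swp 6 = t 5 := rfl
  have e7 : t.swp 7 = t 4 := rfl
  have e8 : t.swp 8 = t 3 := rfl
  have e9 : t.swp 9 = t 14 := rfl
  have e10 : t.swp 10 = t 13 := rfl
  have e11 : t.swp 11 = t 11 := rfl
  have e12 : t.swp 12 = t 12 := rfl
  have e13 : t.swp 13 = t 10 := rfl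
  have e14 : t.swp 14 = t 9 := rfl
  have ed : t.swp.det = t.det := by
    unfold Ten.det
    rw [e0, e1, e2]
    ring
  have k00 : t.swp.K00 = t.K22 := by
    unfold Ten.K00 Ten.K22 Ten.kk
    rw [ed, e0, e1, e2, e9, e3, e4]
    ring
  have k01 : t.swp.K01 = t.K12 := by
    unfold Ten.K01 Ten.K12 Ten.kk
    rw [ed, e0, e1, e2, e10, e3, e4, e5, e6]
    ring
  have k02 : t.swp.K02 = t.K02 := by
    unfold Ten.K02 Ten.kk
    rw [ed, e0, e1, e2, e11, e3, e4, e7, e8]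
    ring
  have k11 : t.swp.K11 = t.K11 := by
    unfold Ten.K11 Ten.kk
    rw [ed, e0, e1, e2, e12, e5, e6]
    ring
  have k12 : t.swp.K12 = t.K01 := by
    unfold Ten.K01 Ten.K12 Ten.kk
    rw [ed, e0, e1, e2, e13, e5, e6, e7, e8]
    ring
  have k22 : t.swp.K22 = t.K00 := by
    unfold Ten.K00 Ten.K22 Ten.kk
    rw [ed, e0, e1, e2, e14, e7, e8]
    ring
  have h2 : 0 < t 2 := by
    unfold Ten.det at hdet
    by_contra hc
    push Not at hc
    nlinarith [sq_nonneg (t 1), mul_nonneg h0.le (neg_nonneg.2 hc)]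
  refine ⟨by rw [e0]; exact h2, by rw [ed]; exact hdet, ?_, ?_, ?_⟩
  · have : t.swp.KDD = t.KDD := by
      unfold Ten.KDD
      rw [k00, k02, k22, e0, e2]
      ring
    rw [this]
    exact hDD
  · have key : t 0 ^ 2 * (t.swp.KDD * t.swp.KOO - t.swp.KDO ^ 2) =
        t 2 ^ 2 * (t.KDD * t.KOO - t.KDO ^ 2) := by
      unfold Ten.KDD Ten.KOO Ten.KDO
      rw [k00, k01, k02, k11, k12, k22, e0, e1, e2]
      ring
    have h3 : 0 < t 0 ^ 2 * (t.swp.KDD * t.swp.KOO - t.swp.KDO ^ 2) := by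
      rw [key]
      exact mul_pos (by positivity) (by linarith)
    have h4 := (mul_pos_iff_of_pos_left (by positivity : 0 < t 0 ^ 2)).1 h3
    linarith
  · have : t.swp.KII = t.KII := by
      unfold Ten.KII
      rw [k00, k01, k02, k11, k12, k22, e0, e1, e2]
      ring
    rw [this]
    exact hII

/-- exchange of the indices of the derivatives -/
def sw6 : Fin 6 → Fin 6 := ![0, 2, 1, 5, 4, 3]

theorem cJ_sw (J : Fin 6) (a b : ℕ) : cJ (sw6 J) a b = cJ J b a := by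
  fin_cases J <;> simp [sw6, cJ, mul_comm]

theorem eX_sw (J : Fin 6) : eX (sw6 J) = eY J := by
  revert J
  decide

theorem eY_sw (J : Fin 6) : eY (sw6 J) = eX J := by
  revert J
  decide

theorem monJ_sw (a b : ℕ) (x y : ℝ) (I J : Fin 6) :
    monJ a b x y (sw6 I) (sw6 J) = monJ b a y x I J := by
  unfold monJ
  rw [cJ_sw, cJ_sw, eX_sw, eX_sw, eY_sw, eY_sw]
  ring

theorem monJ_symm (a b : ℕ) (x y : ℝ) (I J : Fin 6) : monJ a b x y I J = monJ a b x y J I := by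
  unfold monJ
  rw [Nat.sub_right_comm, Nat.sub_right_comm (2 * b)]
  ring

theorem exA_neg' (k : ℕ) (n : ℤ) : exA k (-n) = exB k n := by
  unfold exA exB
  congr 3
  ring

theorem exB_neg' (k : ℕ) (n : ℤ) : exB k (-n) = exA k n := by
  unfold exA exB
  congr 3
  ring

theorem momZ_sw (k : ℕ) (x y : ℝ) (I J : Fin 6) :
    momZ k x y (sw6 I) (sw6 J) = momZ k y x I J := by
  unfold momZ
  rw [← (Equiv.neg ℤ).tsum_eq]
  refine tsum_congr fun n => ?_
  rw [Equiv.neg_apply, exA_neg', exB_neg', monJ_sw]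

theorem momB_sw (k : ℕ) (x y : ℝ) (I J : Fin 6) :
    momB k x y (sw6 I) (sw6 J) = momB k y x I J := by
  unfold momB
  rw [monJ_sw, monJ_sw]

theorem momZ_symm (k : ℕ) (x y : ℝ) (I J : Fin 6) : momZ k x y I J = momZ k x y J I := by
  unfold momZ
  exact tsum_congr fun n => monJ_symm _ _ _ _ _ _

theorem momB_symm (k : ℕ) (x y : ℝ) (I J : Fin 6) : momB k x y I J = momB k x y J I := by
  unfold momB
  rw [monJ_symm, monJ_symm k k]

theorem logTen_sw (u u' : Fin 6 → Fin 6 → ℝ) (hs : ∀ I J, u I J = u J I)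
    (h : ∀ I J, u (sw6 I) (sw6 J) = u' I J) : logTen u' = Ten.swp (logTen u) := by
  have h' : u' = fun I J => u (sw6 I) (sw6 J) := by
    funext I J
    rw [h]
  subst h'
  funext i
  have s0 : sw6 0 = 0 := rfl
  have s1 : sw6 1 = 2 := rfl
  have s2 : sw6 2 = 1 := rfl
  have s3 : sw6 3 = 5 := rfl
  have s4 : sw6 4 = 4 := rfl
  have s5 : sw6 5 = 3 := rfl
  fin_cases i <;>
    simp [logTen, Ten.swp, lg2, lg3, lg4, i1, i2, s0, s1, s2, s3, s4, s5, hs 1 0, hs 2 0,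
      hs 3 0, hs 4 0, hs 5 0, hs 2 1, hs 3 1, hs 4 1, hs 5 1, hs 3 2, hs 4 2, hs 5 2,
      hs 4 3, hs 5 3, hs 5 4] <;> ring

theorem Ten.swp_add (s t : Ten) : (s + t).swp = s.swp + t.swp := by
  funext i
  fin_cases i <;> rfl

theorem Ten.swp_sub (s t : Ten) : (s - t).swp = s.swp - t.swp := by
  funext i
  fin_cases i <;> rfl

theorem Ten.swp_smul (c : ℝ) (t : Ten) : (c • t).swp = c • t.swp := by
  funext i
  fin_cases i <;> rfl

theorem tenD_swp (x y : ℝ) : tenD y x = (tenD x y).swp := by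
  unfold tenD
  rw [Ten.swp_sub, Ten.swp_sub, Ten.swp_add, Ten.swp_add, Ten.swp_smul, Ten.swp_smul,
    Ten.swp_smul, Ten.swp_smul, Ten.swp_smul,
    logTen_sw _ _ (momZ_symm 1 x y) (momZ_sw 1 x y), logTen_sw _ _ (momZ_symm 2 x y)
      (momZ_sw 2 x y), logTen_sw _ _ (momZ_symm 4 x y) (momZ_sw 4 x y),
    logTen_sw _ _ (momB_symm 1 x y) (momB_sw 1 x y),
    logTen_sw _ _ (momB_symm 4 x y) (momB_sw 4 x y)]

theorem certd_sym (x y : ℝ) (h : (tenD x y).Cond) : (tenD y x).Cond := by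
  rw [tenD_swp]
  exact Ten.cond_swp _ h

/-! ### centred formula -/

/-- centred moments -/
def cen (m : Fin 6 → Fin 6 → ℝ) (I J : Fin 6) : ℝ := m I J - m I 0 * m J 0

/-- third derivatives by the centred formula -/
def ct3 (m : Fin 6 → Fin 6 → ℝ) (i k j : Fin 2) : ℝ :=
  cen m (i2 i k) (i1 j) - m (i1 i) 0 * cen m (i1 k) (i1 j) - m (i1 k) 0 * cen m (i1 i) (i1 j)

theorem lg2_eq (m : Fin 6 → Fin 6 → ℝ) (hs : ∀ I J, m I J = m J I) (i j : Fin 2) :
    lg2 m i j = cen m (i1 i) (i1 j) := by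
  unfold lg2 cen
  rw [hs 0]

theorem lg3_eq (m : Fin 6 → Fin 6 → ℝ) (hs : ∀ I J, m I J = m J I) (i k j : Fin 2) :
    lg3 m i k j = ct3 m i k j := by
  unfold lg3 ct3 cen
  rw [hs 0]
  ring

theorem lg4_eq (m : Fin 6 → Fin 6 → ℝ) (hs : ∀ I J, m I J = m J I) (i k j l : Fin 2) :
    lg4 m i k j l = cen m (i2 i k) (i2 j l) - m (i1 i) 0 * cen m (i1 k) (i2 j l)
      - m (i1 k) 0 * cen m (i1 i) (i2 j l) - m (i1 j) 0 * ct3 m i k l
      - m (i1 l) 0 * ct3 m i k j - cen m (i1 i) (i1 j) * cen m (i1 k) (i1 l)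
      - cen m (i1 i) (i1 l) * cen m (i1 k) (i1 j) := by
  unfold lg4 ct3 cen
  rw [hs 0 (i1 j), hs 0 (i1 l), hs 0 (i2 j l)]
  ring

end RicP
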