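import Pool.Agent.Helper95.Ric.DTail
import Pool.Agent.Helper95.Ric.DSym

set_option autoImplicit false

/-!
# CERTD: the program

`Ari`: an arithmetic (constants, operations, a test of positivity); `Sound A R`: the relation `R`
between the objects of the arithmetic and real numbers is respected by all operations.
-/

namespace RicP

/-- an arithmetic -/
structure Ari (T : Type) where
  num : ℕ → T
  add : T → T → T
  sub : T → T → T
  mul : T → T → T
  sq : T → T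
  smu : ℕ → T → T
  inv : T → T
  tail : T → T
  pos : T → Bool

/-- soundness of an arithmetic -/
structure Sound {T : Type} (A : Ari T) (R : T → ℝ → Prop) : Prop where
  num : ∀ n : ℕ, R (A.num n) n
  add : ∀ {s t f g}, R s f → R t g → R (A.add s t) (f + g)
  sub : ∀ {s t f g}, R s f → R t g → R (A.sub s t) (f - g)
  mul : ∀ {s t f g}, R s f → R t g → R (A.mul s t) (f * g)
  sq : ∀ {s f}, R s f → R (A.sq s) (f ^ 2)
  smu : ∀ (n : ℕ) {s f}, R s f → R (A.smu n s) (n * f)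
  inv : ∀ {s f}, A.pos s = true → R s f → R (A.inv s) (f⁻¹)
  tail : ∀ {s f r}, R s f → 0 ≤ r → r ≤ 1 / 10000 → R (A.tail s) (f + r)
  pos : ∀ {s f}, A.pos s = true → R s f → 0 < f

section prog
variable {T : Type} (A : Ari T)

/-- powers -/
def cpw (x : T) (n : ℕ) : T := Nat.rec (A.num 1) (fun _ r => A.mul r x) n

/-- monomials -/
def cmo (x y : T) (i j : ℕ) : T :=
  cond (Nat.beq i 0) (cpw A y j) (cond (Nat.beq j 0) (cpw A x i) (A.mul (cpw A x i) (cpw A y j)))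

/-- coefficients -/
def cco (I a b : ℕ) : ℕ :=
  match I with
  | 0 => 1
  | 1 => a
  | 2 => b
  | 3 => a * (a - 1)
  | 4 => a * b
  | _ => b * (b - 1)

/-- orders of the derivatives -/
def cex (I : ℕ) : ℕ :=
  match I with
  | 1 => 1
  | 3 => 2
  | 4 => 1
  | _ => 0

/-- orders of the derivatives -/
def cey (I : ℕ) : ℕ :=
  match I with
  | 2 => 1
  | 4 => 1
  | 5 => 2
  | _ => 0

/-- one summand of a moment -/
def cmt (x y : T) (a b I J : ℕ) : T :=
  A.smu (cco I a b * cco J a b)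
    (cmo A x y (2 * a - cex I - cex J) (2 * b - cey I - cey J))

/-- finite part of a moment -/
def cms (x y : T) (I J : ℕ) (l : List (ℕ × ℕ)) : T :=
  List.rec (A.num 0) (fun p _ r => cond (Nat.beq (cco I p.1 p.2 * cco J p.1 p.2) 0) r
    (A.add (cmt A x y p.1 p.2 I J) r)) l

/-- the moments of the theta functions -/
def cmz (x y : T) (l : List (ℕ × ℕ)) (I J : ℕ) : T := A.tail (cms A x y I J l)

/-- the moments of the base factors -/
def cmb (x y : T) (k : ℕ) (I J : ℕ) : T :=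
  A.sub (cms A x y I J [(0, 0)]) (cms A x y I J [(k, k)])

/-- normalised moments -/
def cnm (M : ℕ → ℕ → T) (I J : ℕ) : T :=
  cond (Nat.ble I J) (A.mul (M I J) (A.inv (M 0 0))) (A.mul (M J I) (A.inv (M 0 0)))

/-- centred moments -/
def ccn (m : ℕ → ℕ → T) (I J : ℕ) : T :=
  A.sub (m I J) (cond (Nat.beq I J) (A.sq (m I 0)) (A.mul (m I 0) (m J 0)))

def ct111 (m : ℕ → ℕ → T) : T := A.sub (ccn A m 1 3) (A.smu 2 (A.mul (m 1 0) (ccn A m 1 1)))
def ct112 (m : ℕ → ℕ → T) : T := A.sub (ccn A m 2 3) (A.smu 2 (A.mul (m 1 0) (ccn A m 1 2)))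
def ct121 (m : ℕ → ℕ → T) : T :=
  A.sub (A.sub (ccn A m 1 4) (A.mul (m 1 0) (ccn A m 1 2))) (A.mul (m 2 0) (ccn A m 1 1))
def ct122 (m : ℕ → ℕ → T) : T :=
  A.sub (A.sub (ccn A m 2 4) (A.mul (m 1 0) (ccn A m 2 2))) (A.mul (m 2 0) (ccn A m 1 2))
def ct221 (m : ℕ → ℕ → T) : T := A.sub (ccn A m 1 5) (A.smu 2 (A.mul (m 2 0) (ccn A m 1 2)))
def ct222 (m : ℕ → ℕ → T) : T := A.sub (ccn A m 2 5) (A.smu 2 (A.mul (m 2 0) (ccn A m 2 2)))

def cq00 (m : ℕ → ℕ → T) : T :=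
  A.sub (A.sub (A.sub (ccn A m 3 3) (A.smu 2 (A.mul (m 1 0) (ccn A m 1 3))))
    (A.smu 2 (A.mul (m 1 0) (ct111 A m)))) (A.smu 2 (A.sq (ccn A m 1 1)))
def cq01 (m : ℕ → ℕ → T) : T :=
  A.sub (A.sub (A.sub (A.sub (ccn A m 3 4) (A.smu 2 (A.mul (m 1 0) (ccn A m 1 4))))
    (A.mul (m 1 0) (ct112 A m))) (A.mul (m 2 0) (ct111 A m)))
    (A.smu 2 (A.mul (ccn A m 1 1) (ccn A m 1 2)))
def cq02 (m : ℕ → ℕ → T) : T :=
  A.sub (A.sub (A.sub (ccn A m 3 5) (A.smu 2 (A.mul (m 1 0) (ccn A m 1 5))))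
    (A.smu 2 (A.mul (m 2 0) (ct112 A m)))) (A.smu 2 (A.sq (ccn A m 1 2)))
def cq11 (m : ℕ → ℕ → T) : T :=
  A.sub (A.sub (A.sub (A.sub (A.sub (A.sub (ccn A m 4 4) (A.mul (m 1 0) (ccn A m 2 4)))
    (A.mul (m 2 0) (ccn A m 1 4))) (A.mul (m 1 0) (ct122 A m))) (A.mul (m 2 0) (ct121 A m)))
    (A.mul (ccn A m 1 1) (ccn A m 2 2))) (A.sq (ccn A m 1 2))
def cq12 (m : ℕ → ℕ → T) : T :=
  A.sub (A.sub (A.sub (A.sub (ccn A m 4 5) (A.mul (m 1 0) (ccn A m 2 5)))
    (A.mul (m 2 0) (ccn A m 1 5))) (A.smu 2 (A.mul (m 2 0) (ct122 A m))))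
    (A.smu 2 (A.mul (ccn A m 1 2) (ccn A m 2 2)))
def cq22 (m : ℕ → ℕ → T) : T :=
  A.sub (A.sub (A.sub (ccn A m 5 5) (A.smu 2 (A.mul (m 2 0) (ccn A m 2 5))))
    (A.smu 2 (A.mul (m 2 0) (ct222 A m)))) (A.smu 2 (A.sq (ccn A m 2 2)))

/-- the tensors of the logarithm -/
def clt (m : ℕ → ℕ → T) (i : ℕ) : T :=
  match i with
  | 0 => ccn A m 1 1
  | 1 => ccn A m 1 2
  | 2 => ccn A m 2 2
  | 3 => ct111 A m
  | 4 => ct112 A m
  | 5 => ct121 A m
  | 6 => ct122 A m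
  | 7 => ct221 A m
  | 8 => ct222 A m
  | 9 => cq00 A m
  | 10 => cq01 A m
  | 11 => cq02 A m
  | 12 => cq11 A m
  | 13 => cq12 A m
  | _ => cq22 A m

def cz1 (x y : T) : ℕ → ℕ → T := cmz A x y [(0, 0), (1, 0), (0, 1), (3, 1), (1, 3), (6, 3),
  (3, 6), (10, 6), (6, 10), (15, 10), (10, 15)]
def cz2 (x y : T) : ℕ → ℕ → T := cmz A x y [(0, 0), (2, 0), (0, 2), (6, 2), (2, 6), (12, 6),
  (6, 12), (20, 12)]
def cz4 (x y : T) : ℕ → ℕ → T := cmz A x y [(0, 0), (4, 0), (0, 4), (12, 4), (4, 12), (24, 12)]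
def cb1 (x y : T) : ℕ → ℕ → T := cmb A x y 1
def cb4 (x y : T) : ℕ → ℕ → T := cmb A x y 4

/-- the tensors of the potential -/
def cten (x y : T) (i : ℕ) : T :=
  A.sub (A.sub (A.add (A.add (A.smu 4 (clt A (cnm A (cz1 A x y)) i))
    (A.smu 10 (clt A (cnm A (cz2 A x y)) i))) (A.smu 8 (clt A (cnm A (cz4 A x y)) i)))
    (A.smu 5 (clt A (cnm A (cb1 A x y)) i))) (A.smu 7 (clt A (cnm A (cb4 A x y)) i))

/-! curvature -/

def cdet (t : ℕ → T) : T := A.sub (A.mul (t 0) (t 2)) (A.sq (t 1))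

def ckd (t : ℕ → T) (Q a b : T) : T :=
  A.sub (A.mul Q (cdet A t)) (A.sub (A.add (A.mul (A.sq a) (t 2)) (A.mul (A.sq b) (t 0)))
    (A.smu 2 (A.mul (t 1) (A.mul a b))))

def cko (t : ℕ → T) (Q a b c d : T) : T :=
  A.sub (A.mul Q (cdet A t)) (A.sub (A.add (A.mul (A.mul a c) (t 2)) (A.mul (A.mul b d) (t 0)))
    (A.mul (t 1) (A.add (A.mul a d) (A.mul b c))))

def ck00 (t : ℕ → T) : T := ckd A t (t 9) (t 3) (t 4)
def ck01 (t : ℕ → T) : T := cko A t (t 10) (t 3) (t 4) (t 5) (t 6)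
def ck02 (t : ℕ → T) : T := cko A t (t 11) (t 3) (t 4) (t 7) (t 8)
def ck11 (t : ℕ → T) : T := ckd A t (t 12) (t 5) (t 6)
def ck12 (t : ℕ → T) : T := cko A t (t 13) (t 5) (t 6) (t 7) (t 8)
def ck22 (t : ℕ → T) : T := ckd A t (t 14) (t 7) (t 8)

def ckDD (t : ℕ → T) : T :=
  A.add (A.sub (A.mul (A.sq (t 2)) (ck00 A t)) (A.smu 2 (A.mul (A.mul (t 0) (t 2)) (ck02 A t))))
    (A.mul (A.sq (t 0)) (ck22 A t))
def ckOO (t : ℕ → T) : T :=
  A.add (A.sub (A.mul (A.sq (t 1)) (ck00 A t)) (A.smu 2 (A.mul (A.mul (t 0) (t 1)) (ck01 A t))))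
    (A.mul (A.sq (t 0)) (ck11 A t))
def ckDO (t : ℕ → T) : T :=
  A.add (A.sub (A.sub (A.mul (A.mul (t 1) (t 2)) (ck00 A t))
    (A.mul (A.mul (t 0) (t 2)) (ck01 A t))) (A.mul (A.mul (t 0) (t 1)) (ck02 A t)))
    (A.mul (A.sq (t 0)) (ck12 A t))
def ckII (t : ℕ → T) : T :=
  A.sub (A.add (A.sub (A.add (A.add (A.mul (A.sq (t 2)) (ck00 A t))
    (A.smu 4 (A.mul (A.sq (t 1)) (ck11 A t)))) (A.mul (A.sq (t 0)) (ck22 A t)))
    (A.smu 4 (A.mul (A.mul (t 1) (t 2)) (ck01 A t))))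
    (A.smu 2 (A.mul (A.mul (t 0) (t 2)) (ck02 A t))))
    (A.smu 4 (A.mul (A.mul (t 0) (t 1)) (ck12 A t)))

/-- test of the curvature condition -/
def ccond (t : ℕ → T) : Bool :=
  cond (A.pos (t 0)) (cond (A.pos (cdet A t)) (cond (A.pos (ckDD A t))
    (cond (A.pos (A.sub (A.mul (ckDD A t) (ckOO A t)) (A.sq (ckDO A t))))
      (A.pos (ckII A t)) false) false) false) false

/-- the test for one box -/
def cchk (x y : T) : Bool :=
  cond (A.pos (cz1 A x y 0 0)) (cond (A.pos (cz2 A x y 0 0)) (cond (A.pos (cz4 A x y 0 0))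
    (cond (A.pos (cb1 A x y 0 0)) (cond (A.pos (cb4 A x y 0 0)) (ccond A (cten A x y)) false)
      false) false) false) false

end prog

/-! ### soundness -/

theorem Sound.congr {T : Type} {R : T → ℝ → Prop} {t : T} {f g : ℝ} (h : R t f) (e : f = g) :
    R t g := e ▸ h

section sound
variable {T : Type} {A : Ari T} {R : T → ℝ → Prop} (S : Sound A R)

include S in
theorem cpw_sound {x : T} {u : ℝ} (hx : R x u) (n : ℕ) : R (cpw A x n) (u ^ n) := by
  induction n with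
  | zero =>
    have h : R (A.num 1) ((1 : ℕ) : ℝ) := S.num 1
    rw [Nat.cast_one] at h
    rw [pow_zero]
    exact h
  | succ n ih =>
    rw [pow_succ]
    exact S.mul ih hx

include S in
theorem cmo_sound {x y : T} {u v : ℝ} (hx : R x u) (hy : R y v) (i j : ℕ) :
    R (cmo A x y i j) (u ^ i * v ^ j) := by
  unfold cmo
  cases i with
  | zero =>
    have h := cpw_sound S hy j
    rw [pow_zero, one_mul]
    exact h
  | succ i =>
    cases j with
    | zero =>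
      have h := cpw_sound S hx (i + 1)
      rw [pow_zero, mul_one]
      exact h
    | succ j => exact S.mul (cpw_sound S hx _) (cpw_sound S hy _)

theorem cco_cast (I : Fin 6) (a b : ℕ) : ((cco I.val a b : ℕ) : ℝ) = cJ I a b := by
  have h : ∀ a : ℕ, ((a * (a - 1) : ℕ) : ℝ) = (a : ℝ) * ((a : ℝ) - 1) := by
    intro a
    rcases Nat.eq_zero_or_pos a with rfl | ha
    · simp
    · push_cast [Nat.cast_sub ha]
      ring
  fin_cases I
  · simp [cco, cJ]
  · simp [cco, cJ]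
  · simp [cco, cJ]
  · simpa [cco, cJ] using h a
  · simp [cco, cJ]
  · simpa [cco, cJ] using h b

theorem cex_eq (I : Fin 6) : cex I.val = eX I := by
  revert I
  decide

theorem cey_eq (I : Fin 6) : cey I.val = eY I := by
  revert I
  decide

include S in
theorem cmt_sound {x y : T} {u v : ℝ} (hx : R x u) (hy : R y v) (a b : ℕ) (I J : Fin 6) :
    R (cmt A x y a b I.val J.val) (monJ a b u v I J) := by
  unfold cmt
  have h := S.smu (cco I.val a b * cco J.val a b) (cmo_sound S hx hy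
    (2 * a - cex I.val - cex J.val) (2 * b - cey I.val - cey J.val))
  refine Sound.congr h ?_
  unfold monJ
  rw [cex_eq, cex_eq, cey_eq, cey_eq, ← cco_cast, ← cco_cast]
  push_cast
  ring

include S in
theorem cms_sound {x y : T} {u v : ℝ} (hx : R x u) (hy : R y v) (I J : Fin 6)
    (l : List (ℕ × ℕ)) :
    R (cms A x y I.val J.val l) ((l.map fun p => monJ p.1 p.2 u v I J).sum) := by
  induction l with
  | nil =>
    have h : R (A.num 0) ((0 : ℕ) : ℝ) := S.num 0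
    rw [Nat.cast_zero] at h
    exact h
  | cons p l ih =>
    rw [List.map_cons, List.sum_cons]
    change R (cond (Nat.beq (cco I.val p.1 p.2 * cco J.val p.1 p.2) 0) (cms A x y I.val J.val l)
      (A.add (cmt A x y p.1 p.2 I.val J.val) (cms A x y I.val J.val l))) _
    cases hb : Nat.beq (cco I.val p.1 p.2 * cco J.val p.1 p.2) 0 with
    | true =>
      have h0 := Nat.eq_of_beq_eq_true hb
      have h1 : cJ I p.1 p.2 * cJ J p.1 p.2 = 0 := by
        rw [← cco_cast, ← cco_cast]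
        exact_mod_cast h0
      have h2 : monJ p.1 p.2 u v I J = 0 := by
        unfold monJ
        rw [h1, zero_mul, zero_mul]
      rw [h2, zero_add]
      exact ih
    | false => exact S.add (cmt_sound S hx hy _ _ _ _) ih

include S in
theorem cmz_sound {x y : T} {u v : ℝ} (hx : R x u) (hy : R y v) (k : ℕ)
    (hk : k = 1 ∨ k = 2 ∨ k = 4) (hu : 0 ≤ u) (hv : 0 ≤ v) (hu1 : u ≤ 65 / 64) (hvu : v ≤ u)
    (huv : u * v ≤ 2 / 5) (I J : Fin 6) :
    R (cmz A x y (ctl k) I.val J.val) (momZ k u v I J) := by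
  obtain ⟨r, h0, h1, h2⟩ := certd_moment k hk hu hv hu1 hvu huv I J
  rw [h2]
  exact S.tail (cms_sound S hx hy I J _) h0 h1

include S in
theorem cmb_sound {x y : T} {u v : ℝ} (hx : R x u) (hy : R y v) (k : ℕ) (I J : Fin 6) :
    R (cmb A x y k I.val J.val) (momB k u v I J) := by
  have h1 := cms_sound S hx hy I J [(0, 0)]
  have h2 := cms_sound S hx hy I J [(k, k)]
  simp only [List.map_cons, List.map_nil, List.sum_cons, List.sum_nil, add_zero] at h1 h2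
  exact S.sub h1 h2

include S in
theorem cnm_sound {M : ℕ → ℕ → T} {μ : Fin 6 → Fin 6 → ℝ} (hs : ∀ I J, μ I J = μ J I)
    (hM : ∀ I J : Fin 6, R (M I.val J.val) (μ I J)) (hp : A.pos (M 0 0) = true) (I J : Fin 6) :
    R (cnm A M I.val J.val) (μ I J / μ 0 0) := by
  have hi : R (A.inv (M 0 0)) (μ 0 0)⁻¹ := S.inv hp (hM 0 0)
  unfold cnm
  cases Nat.ble I.val J.val with
  | true => exact S.mul (hM I J) hi
  | false =>
    rw [hs I J]
    exact S.mul (hM J I) hi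

include S in
theorem ccn_sound {m : ℕ → ℕ → T} {μ : Fin 6 → Fin 6 → ℝ}
    (hm : ∀ I J : Fin 6, R (m I.val J.val) (μ I J)) (I J : Fin 6) :
    R (ccn A m I.val J.val) (cen μ I J) := by
  unfold ccn cen
  cases hb : Nat.beq I.val J.val with
  | true =>
    have h0 : I = J := Fin.ext (Nat.eq_of_beq_eq_true hb)
    subst h0
    exact S.sub (hm I I) (Sound.congr (S.sq (hm I 0)) (by ring))
  | false => exact S.sub (hm I J) (S.mul (hm I 0) (hm J 0))

include S in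
theorem clt_sound {m : ℕ → ℕ → T} {u : Fin 6 → Fin 6 → ℝ} (hs : ∀ I J, u I J = u J I)
    (hm : ∀ I J : Fin 6, R (m I.val J.val) (u I J / u 0 0)) (i : Fin 15) :
    R (clt A m i.val) (logTen u i) := by
  set μ : Fin 6 → Fin 6 → ℝ := fun I J => u I J / u 0 0 with hμ
  have hs' : ∀ I J, μ I J = μ J I := fun I J => by
    simp only [hμ]
    rw [hs]
  have hc : ∀ I J : Fin 6, R (ccn A m I.val J.val) (cen μ I J) := ccn_sound S hm
  have c11 : R (ccn A m 1 1) (cen μ 1 1) := hc 1 1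
  have c12 : R (ccn A m 1 2) (cen μ 1 2) := hc 1 2
  have c22 : R (ccn A m 2 2) (cen μ 2 2) := hc 2 2
  have c13 : R (ccn A m 1 3) (cen μ 1 3) := hc 1 3
  have c14 : R (ccn A m 1 4) (cen μ 1 4) := hc 1 4
  have c15 : R (ccn A m 1 5) (cen μ 1 5) := hc 1 5
  have c23 : R (ccn A m 2 3) (cen μ 2 3) := hc 2 3
  have c24 : R (ccn A m 2 4) (cen μ 2 4) := hc 2 4
  have c25 : R (ccn A m 2 5) (cen μ 2 5) := hc 2 5
  have c33 : R (ccn A m 3 3) (cen μ 3 3) := hc 3 3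
  have c34 : R (ccn A m 3 4) (cen μ 3 4) := hc 3 4
  have c35 : R (ccn A m 3 5) (cen μ 3 5) := hc 3 5
  have c44 : R (ccn A m 4 4) (cen μ 4 4) := hc 4 4
  have c45 : R (ccn A m 4 5) (cen μ 4 5) := hc 4 5
  have c55 : R (ccn A m 5 5) (cen μ 5 5) := hc 5 5
  have m1 : R (m 1 0) (μ 1 0) := hm 1 0
  have m2 : R (m 2 0) (μ 2 0) := hm 2 0
  have hsc : ∀ I J, cen μ I J = cen μ J I := fun I J => by
    unfold cen
    rw [hs' I J]
    ring
  have a0 : (i1 0) = 1 := rfl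
  have a1 : (i1 1) = 2 := rfl
  have b00 : (i2 0 0) = 3 := rfl
  have b01 : (i2 0 1) = 4 := rfl
  have b11 : (i2 1 1) = 5 := rfl
  have t111 : R (ct111 A m) (ct3 μ 0 0 0) := by
    refine Sound.congr (S.sub c13 (S.smu 2 (S.mul m1 c11))) ?_
    unfold ct3
    rw [a0, b00, hsc 3 1]
    push_cast
    ring
  have t112 : R (ct112 A m) (ct3 μ 0 0 1) := by
    refine Sound.congr (S.sub c23 (S.smu 2 (S.mul m1 c12))) ?_
    unfold ct3
    rw [a0, a1, b00, hsc 3 2]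
    push_cast
    ring
  have t121 : R (ct121 A m) (ct3 μ 0 1 0) := by
    refine Sound.congr (S.sub (S.sub c14 (S.mul m1 c12)) (S.mul m2 c11)) ?_
    unfold ct3
    rw [a0, a1, b01, hsc 4 1, hsc 2 1]
  have t122 : R (ct122 A m) (ct3 μ 0 1 1) := by
    refine Sound.congr (S.sub (S.sub c24 (S.mul m1 c22)) (S.mul m2 c12)) ?_
    unfold ct3
    rw [a0, a1, b01, hsc 4 2]
  have t221 : R (ct221 A m) (ct3 μ 1 1 0) := by
    refine Sound.congr (S.sub c15 (S.smu 2 (S.mul m2 c12))) ?_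
    unfold ct3
    rw [a0, a1, b11, hsc 5 1, hsc 2 1]
    push_cast
    ring
  have t222 : R (ct222 A m) (ct3 μ 1 1 1) := by
    refine Sound.congr (S.sub c25 (S.smu 2 (S.mul m2 c22))) ?_
    unfold ct3
    rw [a1, b11, hsc 5 2]
    push_cast
    ring
  fin_cases i
  · exact Sound.congr c11 (lg2_eq μ hs' 0 0).symm
  · exact Sound.congr c12 (lg2_eq μ hs' 0 1).symm
  · exact Sound.congr c22 (lg2_eq μ hs' 1 1).symm
  · exact Sound.congr t111 (lg3_eq μ hs' 0 0 0).symm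
  · exact Sound.congr t112 (lg3_eq μ hs' 0 0 1).symm
  · exact Sound.congr t121 (lg3_eq μ hs' 0 1 0).symm
  · exact Sound.congr t122 (lg3_eq μ hs' 0 1 1).symm
  · exact Sound.congr t221 (lg3_eq μ hs' 1 1 0).symm
  · exact Sound.congr t222 (lg3_eq μ hs' 1 1 1).symm
  · refine Sound.congr (S.sub (S.sub (S.sub c33 (S.smu 2 (S.mul m1 c13)))
      (S.smu 2 (S.mul m1 t111))) (S.smu 2 (S.sq c11))) ?_
    change _ = lg4 μ 0 0 0 0
    rw [lg4_eq μ hs', a0, b00]
    push_cast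
    ring
  · refine Sound.congr (S.sub (S.sub (S.sub (S.sub c34 (S.smu 2 (S.mul m1 c14)))
      (S.mul m1 t112)) (S.mul m2 t111)) (S.smu 2 (S.mul c11 c12))) ?_
    change _ = lg4 μ 0 0 0 1
    rw [lg4_eq μ hs', a0, a1, b00, b01]
    push_cast
    ring
  · refine Sound.congr (S.sub (S.sub (S.sub c35 (S.smu 2 (S.mul m1 c15)))
      (S.smu 2 (S.mul m2 t112))) (S.smu 2 (S.sq c12))) ?_
    change _ = lg4 μ 0 0 1 1
    rw [lg4_eq μ hs', a0, a1, b00, b11]
    push_cast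
    ring
  · refine Sound.congr (S.sub (S.sub (S.sub (S.sub (S.sub (S.sub c44 (S.mul m1 c24))
      (S.mul m2 c14)) (S.mul m1 t122)) (S.mul m2 t121)) (S.mul c11 c22)) (S.sq c12)) ?_
    change _ = lg4 μ 0 1 0 1
    rw [lg4_eq μ hs', a0, a1, b01, hsc 2 1]
    ring
  · refine Sound.congr (S.sub (S.sub (S.sub (S.sub c45 (S.mul m1 c25)) (S.mul m2 c15))
      (S.smu 2 (S.mul m2 t122))) (S.smu 2 (S.mul c12 c22))) ?_
    change _ = lg4 μ 0 1 1 1
    rw [lg4_eq μ hs', a0, a1, b01, b11]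
    push_cast
    ring
  · refine Sound.congr (S.sub (S.sub (S.sub c55 (S.smu 2 (S.mul m2 c25)))
      (S.smu 2 (S.mul m2 t222))) (S.smu 2 (S.sq c22))) ?_
    change _ = lg4 μ 1 1 1 1
    rw [lg4_eq μ hs', a1, b11]
    push_cast
    ring

include S in
theorem ccond_sound {t : ℕ → T} {τ : Ten} (ht : ∀ i : Fin 15, R (t i.val) (τ i))
    (h : ccond A t = true) : τ.Cond := by
  have t0 : R (t 0) (τ 0) := ht 0
  have t1 : R (t 1) (τ 1) := ht 1
  have t2 : R (t 2) (τ 2) := ht 2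
  have t3 : R (t 3) (τ 3) := ht 3
  have t4 : R (t 4) (τ 4) := ht 4
  have t5 : R (t 5) (τ 5) := ht 5
  have t6 : R (t 6) (τ 6) := ht 6
  have t7 : R (t 7) (τ 7) := ht 7
  have t8 : R (t 8) (τ 8) := ht 8
  have t9 : R (t 9) (τ 9) := ht 9
  have t10 : R (t 10) (τ 10) := ht 10
  have t11 : R (t 11) (τ 11) := ht 11
  have t12 : R (t 12) (τ 12) := ht 12
  have t13 : R (t 13) (τ 13) := ht 13
  have t14 : R (t 14) (τ 14) := ht 14
  have hdet : R (cdet A t) τ.det := S.sub (S.mul t0 t2) (S.sq t1)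
  have hkd : ∀ {Q a b : T} {q α β : ℝ}, R Q q → R a α → R b β →
      R (ckd A t Q a b) (τ.kk q α β α β) := by
    intro Q a b q α β hQ ha hb
    refine Sound.congr (S.sub (S.mul hQ hdet) (S.sub (S.add (S.mul (S.sq ha) t2)
      (S.mul (S.sq hb) t0)) (S.smu 2 (S.mul t1 (S.mul ha hb))))) ?_
    unfold Ten.kk
    push_cast
    ring
  have hko : ∀ {Q a b c d : T} {q α β γ δ : ℝ}, R Q q → R a α → R b β → R c γ → R d δ →
      R (cko A t Q a b c d) (τ.kk q α β γ δ) := by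
    intro Q a b c d q α β γ δ hQ ha hb hc hd
    refine Sound.congr (S.sub (S.mul hQ hdet) (S.sub (S.add (S.mul (S.mul ha hc) t2)
      (S.mul (S.mul hb hd) t0)) (S.mul t1 (S.add (S.mul ha hd) (S.mul hb hc))))) ?_
    unfold Ten.kk
    ring
  have k00 : R (ck00 A t) τ.K00 := hkd t9 t3 t4
  have k01 : R (ck01 A t) τ.K01 := hko t10 t3 t4 t5 t6
  have k02 : R (ck02 A t) τ.K02 := hko t11 t3 t4 t7 t8
  have k11 : R (ck11 A t) τ.K11 := hkd t12 t5 t6
  have k12 : R (ck12 A t) τ.K12 := hko t13 t5 t6 t7 t8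
  have k22 : R (ck22 A t) τ.K22 := hkd t14 t7 t8
  have kDD : R (ckDD A t) τ.KDD := by
    refine Sound.congr (S.add (S.sub (S.mul (S.sq t2) k00) (S.smu 2 (S.mul (S.mul t0 t2) k02)))
      (S.mul (S.sq t0) k22)) ?_
    unfold Ten.KDD
    push_cast
    ring
  have kOO : R (ckOO A t) τ.KOO := by
    refine Sound.congr (S.add (S.sub (S.mul (S.sq t1) k00) (S.smu 2 (S.mul (S.mul t0 t1) k01)))
      (S.mul (S.sq t0) k11)) ?_
    unfold Ten.KOO
    push_cast
    ring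
  have kDO : R (ckDO A t) τ.KDO :=
    S.add (S.sub (S.sub (S.mul (S.mul t1 t2) k00) (S.mul (S.mul t0 t2) k01))
      (S.mul (S.mul t0 t1) k02)) (S.mul (S.sq t0) k12)
  have kII : R (ckII A t) τ.KII := by
    refine Sound.congr (S.sub (S.add (S.sub (S.add (S.add (S.mul (S.sq t2) k00)
      (S.smu 4 (S.mul (S.sq t1) k11))) (S.mul (S.sq t0) k22))
      (S.smu 4 (S.mul (S.mul t1 t2) k01))) (S.smu 2 (S.mul (S.mul t0 t2) k02)))
      (S.smu 4 (S.mul (S.mul t0 t1) k12))) ?_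
    unfold Ten.KII
    push_cast
    ring
  unfold ccond at h
  simp only [Bool.cond_eq_ite, Bool.ite_eq_true_distrib, Bool.false_eq_true, if_false_right]
    at h
  obtain ⟨h1, h2, h3, h4, h5⟩ := h
  refine ⟨S.pos h1 t0, S.pos h2 hdet, S.pos h3 kDD, ?_, S.pos h5 kII⟩
  have h6 := S.pos h4 (S.sub (S.mul kDD kOO) (S.sq kDO))
  linarith

include S in
theorem cchk_sound {x y : T} {u v : ℝ} (hx : R x u) (hy : R y v) (hu : 0 ≤ u) (hv : 0 ≤ v)
    (hu1 : u ≤ 65 / 64) (hvu : v ≤ u) (huv : u * v ≤ 2 / 5) (h : cchk A x y = true) :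
    (tenD u v).Cond := by
  unfold cchk at h
  simp only [Bool.cond_eq_ite, Bool.ite_eq_true_distrib, Bool.false_eq_true, if_false_right]
    at h
  obtain ⟨h1, h2, h3, h4, h5, h6⟩ := h
  refine ccond_sound S (t := cten A x y) (fun i => ?_) h6
  have l1 : R (clt A (cnm A (cz1 A x y)) i.val) (logTen (momZ 1 u v) i) :=
    clt_sound S (momZ_symm 1 u v) (cnm_sound S (momZ_symm 1 u v)
      (fun I J => cmz_sound S hx hy 1 (Or.inl rfl) hu hv hu1 hvu huv I J) h1) i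
  have l2 : R (clt A (cnm A (cz2 A x y)) i.val) (logTen (momZ 2 u v) i) :=
    clt_sound S (momZ_symm 2 u v) (cnm_sound S (momZ_symm 2 u v)
      (fun I J => cmz_sound S hx hy 2 (Or.inr (Or.inl rfl)) hu hv hu1 hvu huv I J) h2) i
  have l4 : R (clt A (cnm A (cz4 A x y)) i.val) (logTen (momZ 4 u v) i) :=
    clt_sound S (momZ_symm 4 u v) (cnm_sound S (momZ_symm 4 u v)
      (fun I J => cmz_sound S hx hy 4 (Or.inr (Or.inr rfl)) hu hv hu1 hvu huv I J) h3) i
  have b1 : R (clt A (cnm A (cb1 A x y)) i.val) (logTen (momB 1 u v) i) :=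
    clt_sound S (momB_symm 1 u v) (cnm_sound S (momB_symm 1 u v)
      (fun I J => cmb_sound S hx hy 1 I J) h4) i
  have b4 : R (clt A (cnm A (cb4 A x y)) i.val) (logTen (momB 4 u v) i) :=
    clt_sound S (momB_symm 4 u v) (cnm_sound S (momB_symm 4 u v)
      (fun I J => cmb_sound S hx hy 4 I J) h5) i
  refine Sound.congr (S.sub (S.sub (S.add (S.add (S.smu 4 l1) (S.smu 10 l2)) (S.smu 8 l4))
    (S.smu 5 b1)) (S.smu 7 b4)) ?_
  simp only [tenD, Pi.sub_apply, Pi.add_apply, Pi.smul_apply, smul_eq_mul]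
  push_cast
  ring

end sound

end RicP
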