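import Pool.Agent.Helper95.Ric.DArith

set_option autoImplicit false

/-! # CERTD: run 1 (99 boxes) -/

namespace RicP

theorem dr72_0 : vbx (.y (.x .i .i) (.x (.y .i .i) (.y .i .i))) 7168 256 2048 512 = true :=
    by decide +kernel

theorem dr72_1 : vbx (.y (.x .i (.y .i .i)) (.x (.y .i .i) (.y .i .i))) 7424 256 2048 512 = true
    := by decide +kernel

theorem dr72_2 : vbx (.y (.x (.y .i .i) (.y .i .i)) (.x (.y .i .i) (.y .i (.x .i .i)))) 7168 256
    2560 512 = true := by decide +kernel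

theorem dr72_3 : vbx (.x (.y .i .i) (.y .i (.x .i .i))) 7424 256 2560 256 = true :=
    by decide +kernel

theorem dr72_4 : vbx (.x (.y (.x .i .i) (.x .i .i)) (.y (.x .i .i) (.x .i .i))) 7424 256 2816
    256 = true := by decide +kernel

theorem dr72_5 : vbx (.y (.x (.y .i .i) (.y .i .i)) (.x (.y .i (.x .i .i)) (.y (.x .i .i) (.x .i
    .i)))) 7680 256 2048 512 = true := by decide +kernel

theorem dr72_6 : vbx (.x (.y (.x .i .i) (.x .i .i)) (.y (.x .i .i) (.x .i .i))) 7936 256 2048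
    256 = true := by decide +kernel

theorem dr72_7 : vbx (.x (.y (.x .i .i) (.x .i .i)) (.y (.x .i .i) (.x .i .i))) 7936 256 2304
    256 = true := by decide +kernel

theorem dr72_8 : vbx (.x (.y (.x .i .i) (.x .i .i)) (.y (.x .i .i) (.x .i .i))) 7680 256 2560
    256 = true := by decide +kernel

theorem dr72_9 : vbx (.x (.y (.x .i .i) (.x .i .i)) (.y (.x .i .i) (.x .i .i))) 7680 256 2816
    256 = true := by decide +kernel

theorem dr72_10 : vbx (.x (.y (.x .i .i) (.x .i .i)) (.y (.x .i .i) (.x .i .i))) 7936 256 2560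
    256 = true := by decide +kernel

theorem dr72_11 : vbx (.y (.x .i .i) (.x .i (.y .i .i))) 7936 128 2816 256 = true :=
    by decide +kernel

theorem dr72_12 : vbx (.y (.x (.y .i .i) (.y .i .i)) (.x (.y .i .i) (.y .i .i))) 8064 128 2816
    256 = true := by decide +kernel

theorem dk72 : DOK 7168 1024 2048 1024 :=
  (dok_x (w' := 512) (X' := 7680) rfl rfl
  (dok_y (h' := 512) (Y' := 2560) rfl rfl
  (dok_x (w' := 256) (X' := 7424) rfl rfl
  (vbx_sound _ _ _ _ _ dr72_0)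
  (vbx_sound _ _ _ _ _ dr72_1))
  (dok_x (w' := 256) (X' := 7424) rfl rfl
  (vbx_sound _ _ _ _ _ dr72_2)
  (dok_y (h' := 256) (Y' := 2816) rfl rfl
  (vbx_sound _ _ _ _ _ dr72_3)
  (vbx_sound _ _ _ _ _ dr72_4))))
  (dok_y (h' := 512) (Y' := 2560) rfl rfl
  (dok_x (w' := 256) (X' := 7936) rfl rfl
  (vbx_sound _ _ _ _ _ dr72_5)
  (dok_y (h' := 256) (Y' := 2304) rfl rfl
  (vbx_sound _ _ _ _ _ dr72_6)
  (vbx_sound _ _ _ _ _ dr72_7)))
  (dok_x (w' := 256) (X' := 7936) rfl rfl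
  (dok_y (h' := 256) (Y' := 2816) rfl rfl
  (vbx_sound _ _ _ _ _ dr72_8)
  (vbx_sound _ _ _ _ _ dr72_9))
  (dok_y (h' := 256) (Y' := 2816) rfl rfl
  (vbx_sound _ _ _ _ _ dr72_10)
  (dok_x (w' := 128) (X' := 8064) rfl rfl
  (vbx_sound _ _ _ _ _ dr72_11)
  (vbx_sound _ _ _ _ _ dr72_12))))))

end RicP
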