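import Pool.Agent.Helper88.Ric.Stmts

set_option autoImplicit false

/-!
# CERTD: tails of the moments of the theta functions
-/

noncomputable section

namespace RicP

open Finset

theorem certd_cJ_nonneg (J : Fin 6) (a b : ℕ) : 0 ≤ cJ J a b := by
  have h : ∀ a : ℕ, (0 : ℝ) ≤ (a : ℝ) * ((a : ℝ) - 1) := by
    intro a
    rcases Nat.eq_zero_or_pos a with rfl | ha
    · simp
    · have : (1 : ℝ) ≤ a := by exact_mod_cast ha
      exact mul_nonneg (by linarith) (by linarith)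
  fin_cases J
  · simp [cJ]
  · simp [cJ]
  · simp [cJ]
  · simpa [cJ] using h a
  · simp only [cJ]
    exact mul_nonneg (Nat.cast_nonneg _) (Nat.cast_nonneg _)
  · simpa [cJ] using h b

theorem certd_cJ_le (J : Fin 6) (a b : ℕ) : cJ J a b ≤ (a : ℝ) ^ eX J * (b : ℝ) ^ eY J := by
  fin_cases J
  · simp [cJ, eX, eY]
  · simp [cJ, eX, eY]
  · simp [cJ, eX, eY]
  · have : (0 : ℝ) ≤ a := Nat.cast_nonneg _
    simp [cJ, eX, eY]
    nlinarith
  · simp [cJ, eX, eY]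
  · have : (0 : ℝ) ≤ b := Nat.cast_nonneg _
    simp [cJ, eX, eY]
    nlinarith

theorem certd_st (I J : Fin 6) : eX I + eX J + (eY I + eY J) ≤ 4 := by
  revert I J
  decide

theorem certd_monJ_nonneg (a b : ℕ) {x y : ℝ} (hx : 0 ≤ x) (hy : 0 ≤ y) (I J : Fin 6) :
    0 ≤ monJ a b x y I J := by
  unfold monJ
  have := certd_cJ_nonneg I a b
  have := certd_cJ_nonneg J a b
  positivity

theorem certd_monJ_le (a b : ℕ) {x y : ℝ} (hx : 0 ≤ x) (hy : 0 ≤ y) (I J : Fin 6) :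
    monJ a b x y I J ≤ (a : ℝ) ^ (eX I + eX J) * (b : ℝ) ^ (eY I + eY J) *
      x ^ (2 * a - (eX I + eX J)) * y ^ (2 * b - (eY I + eY J)) := by
  unfold monJ
  rw [Nat.sub_sub, Nat.sub_sub]
  have h1 : cJ I a b * cJ J a b ≤ (a : ℝ) ^ (eX I + eX J) * (b : ℝ) ^ (eY I + eY J) := by
    calc cJ I a b * cJ J a b ≤ ((a : ℝ) ^ eX I * (b : ℝ) ^ eY I) *
          ((a : ℝ) ^ eX J * (b : ℝ) ^ eY J) :=
          mul_le_mul (certd_cJ_le I a b) (certd_cJ_le J a b) (certd_cJ_nonneg J a b)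
            (by positivity)
      _ = _ := by rw [pow_add, pow_add]; ring
  have h2 : 0 ≤ x ^ (2 * a - (eX I + eX J)) * y ^ (2 * b - (eY I + eY J)) := by positivity
  calc cJ I a b * cJ J a b * x ^ (2 * a - (eX I + eX J)) * y ^ (2 * b - (eY I + eY J))
      = cJ I a b * cJ J a b *
        (x ^ (2 * a - (eX I + eX J)) * y ^ (2 * b - (eY I + eY J))) := by ring
    _ ≤ _ := mul_le_mul_of_nonneg_right h1 h2
    _ = _ := by ring

/-- bound for the terms with `n > 0` -/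
theorem certd_pos (a b d s t : ℕ) (x y : ℝ) (hx : 0 ≤ x) (hy : 0 ≤ y) (hx1 : x ≤ 65 / 64)
    (hxy : x * y ≤ 2 / 5) (hst : s + t ≤ 4) (hb : 2 ≤ b) (hd : 2 ≤ d) (hab : a = b + d)
    (h2 : (a : ℝ) ≤ 5 / 2 * b) :
    (a : ℝ) ^ s * (b : ℝ) ^ t * x ^ (2 * a - s) * y ^ (2 * b - t) ≤
      (5 / 2 * b) ^ 4 * (2 / 5) ^ (2 * b) * (65 / 64) ^ (2 * d + 4) := by
  have e1 : 2 * a - s = (2 * b - t) + (2 * d + t - s) := by omega
  have hb1 : (1 : ℝ) ≤ 5 / 2 * b := by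
    have : (2 : ℝ) ≤ b := by exact_mod_cast hb
    linarith
  have h3 : x ^ (2 * b - t) * y ^ (2 * b - t) ≤ (2 / 5) ^ (2 * b - t) := by
    rw [← mul_pow]
    exact pow_le_pow_left₀ (mul_nonneg hx hy) hxy _
  have h4 : (2 / 5 : ℝ) ^ (2 * b - t) = (2 / 5) ^ (2 * b) * (5 / 2) ^ t := by
    have h5 : (2 / 5 : ℝ) ^ (2 * b) = (2 / 5) ^ (2 * b - t) * (2 / 5) ^ t := by
      rw [← pow_add]
      congr 1
      omega
    rw [h5, mul_assoc, ← mul_pow]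
    norm_num
  have h6 : x ^ (2 * d + t - s) ≤ (65 / 64) ^ (2 * d + 4) := by
    calc x ^ (2 * d + t - s) ≤ (65 / 64) ^ (2 * d + t - s) := pow_le_pow_left₀ hx hx1 _
      _ ≤ _ := pow_le_pow_right₀ (by norm_num) (by omega)
  have h7 : (a : ℝ) ^ s * ((5 / 2) ^ t * (b : ℝ) ^ t) ≤ (5 / 2 * b) ^ 4 := by
    rw [← mul_pow]
    calc (a : ℝ) ^ s * (5 / 2 * b) ^ t ≤ (5 / 2 * b) ^ s * (5 / 2 * b) ^ t :=
          mul_le_mul_of_nonneg_right (pow_le_pow_left₀ (Nat.cast_nonneg _) h2 _) (by positivity)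
      _ = (5 / 2 * b) ^ (s + t) := by rw [pow_add]
      _ ≤ _ := pow_le_pow_right₀ hb1 hst
  calc (a : ℝ) ^ s * (b : ℝ) ^ t * x ^ (2 * a - s) * y ^ (2 * b - t)
      = ((a : ℝ) ^ s * (b : ℝ) ^ t) * (x ^ (2 * b - t) * y ^ (2 * b - t)) *
        x ^ (2 * d + t - s) := by rw [e1, pow_add]; ring
    _ ≤ ((a : ℝ) ^ s * (b : ℝ) ^ t) * ((2 / 5) ^ (2 * b) * (5 / 2) ^ t) *
        (65 / 64) ^ (2 * d + 4) := by
        rw [h4] at h3
        gcongr
    _ = ((a : ℝ) ^ s * ((5 / 2) ^ t * (b : ℝ) ^ t)) * ((2 / 5) ^ (2 * b) *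
        (65 / 64) ^ (2 * d + 4)) := by ring
    _ ≤ (5 / 2 * b) ^ 4 * ((2 / 5) ^ (2 * b) * (65 / 64) ^ (2 * d + 4)) :=
        mul_le_mul_of_nonneg_right h7 (by positivity)
    _ = _ := by ring

/-- bound for the terms with `n < 0` -/
theorem certd_neg (a b d s t : ℕ) (x y : ℝ) (hx : 0 ≤ x) (hy : 0 ≤ y) (hyx : y ≤ x)
    (hxy : x * y ≤ 2 / 5) (hst : s + t ≤ 4) (ha : 2 ≤ a) (hd : 2 ≤ d) (hab : b = a + d) :
    (a : ℝ) ^ s * (b : ℝ) ^ t * x ^ (2 * a - s) * y ^ (2 * b - t) ≤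
      (5 / 2 * b) ^ 4 * (2 / 5) ^ (2 * a + d - 2) := by
  have e1 : 2 * b - t = (2 * a - s) + (2 * d + s - t) := by omega
  have e2 : 2 * d + s - t = 2 * (d - 2) + (4 + s - t) := by omega
  have hab' : (a : ℝ) ≤ b := by exact_mod_cast (by omega : a ≤ b)
  have ha1 : (2 : ℝ) ≤ a := by exact_mod_cast ha
  have hb1 : (1 : ℝ) ≤ 5 / 2 * b := by linarith
  have hy2 : y ^ 2 ≤ 2 / 5 := by nlinarith
  have hy1 : y ≤ 1 := by nlinarith
  have h3 : x ^ (2 * a - s) * y ^ (2 * a - s) ≤ (2 / 5) ^ (2 * a - s) := by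
    rw [← mul_pow]
    exact pow_le_pow_left₀ (mul_nonneg hx hy) hxy _
  have h4 : (2 / 5 : ℝ) ^ (2 * a - s) = (2 / 5) ^ (2 * a) * (5 / 2) ^ s := by
    have h5 : (2 / 5 : ℝ) ^ (2 * a) = (2 / 5) ^ (2 * a - s) * (2 / 5) ^ s := by
      rw [← pow_add]
      congr 1
      omega
    rw [h5, mul_assoc, ← mul_pow]
    norm_num
  have h6 : y ^ (2 * d + s - t) ≤ (2 / 5) ^ (d - 2) := by
    rw [e2, pow_add, pow_mul]
    calc (y ^ 2) ^ (d - 2) * y ^ (4 + s - t) ≤ (2 / 5) ^ (d - 2) * 1 :=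
          mul_le_mul (pow_le_pow_left₀ (by positivity) hy2 _) (pow_le_one₀ hy hy1)
            (by positivity) (by positivity)
      _ = _ := mul_one _
  have h7 : (a : ℝ) ^ s * (5 / 2) ^ s * (b : ℝ) ^ t ≤ (5 / 2 * b) ^ 4 := by
    calc (a : ℝ) ^ s * (5 / 2) ^ s * (b : ℝ) ^ t = (5 / 2 * a) ^ s * (b : ℝ) ^ t := by
          rw [← mul_pow, mul_comm (a : ℝ)]
      _ ≤ (5 / 2 * b) ^ s * (5 / 2 * b) ^ t := by
          refine mul_le_mul (pow_le_pow_left₀ (by positivity) (by linarith) _)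
            (pow_le_pow_left₀ (by positivity) (by linarith) _) (by positivity) (by positivity)
      _ = (5 / 2 * b) ^ (s + t) := by rw [pow_add]
      _ ≤ _ := pow_le_pow_right₀ hb1 hst
  calc (a : ℝ) ^ s * (b : ℝ) ^ t * x ^ (2 * a - s) * y ^ (2 * b - t)
      = ((a : ℝ) ^ s * (b : ℝ) ^ t) * (x ^ (2 * a - s) * y ^ (2 * a - s)) *
        y ^ (2 * d + s - t) := by rw [e1, pow_add]; ring
    _ ≤ ((a : ℝ) ^ s * (b : ℝ) ^ t) * ((2 / 5) ^ (2 * a) * (5 / 2) ^ s) *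
        (2 / 5) ^ (d - 2) := by
        rw [h4] at h3
        gcongr
    _ = ((a : ℝ) ^ s * (5 / 2) ^ s * (b : ℝ) ^ t) * ((2 / 5) ^ (2 * a) *
        (2 / 5) ^ (d - 2)) := by ring
    _ ≤ (5 / 2 * b) ^ 4 * ((2 / 5) ^ (2 * a) * (2 / 5) ^ (d - 2)) :=
        mul_le_mul_of_nonneg_right h7 (by positivity)
    _ = _ := by
        rw [← pow_add]
        congr 2
        omega

/-! ### majorants -/

/-- triangular numbers -/
def ctT (n : ℕ) : ℕ := n * (n - 1) / 2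

theorem ctT_succ (n : ℕ) : ctT (n + 1) = ctT n + n := Nat.triangle_succ n

theorem ctT_mono {m n : ℕ} (h : m ≤ n) : ctT m ≤ ctT n := by
  induction n, h using Nat.le_induction with
  | base => exact le_rfl
  | succ n _ ih => rw [ctT_succ]; omega

theorem ctT_three {n : ℕ} (h : 3 ≤ n) : n ≤ ctT n := by
  induction n, h using Nat.le_induction with
  | base => decide
  | succ n hn ih => rw [ctT_succ]; omega

/-- majorant for `n > 0` -/
def ctF (k n : ℕ) : ℝ :=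
  (5 / 2 * ((k * ctT n : ℕ) : ℝ)) ^ 4 * (2 / 5) ^ (2 * (k * ctT n)) *
    (65 / 64) ^ (2 * (k * n) + 4)

/-- majorant for `n = - m < 0` -/
def ctG (k m : ℕ) : ℝ :=
  (5 / 2 * ((k * ctT (m + 1) : ℕ) : ℝ)) ^ 4 * (2 / 5) ^ (2 * (k * ctT m) + k * m - 2)

theorem ctF_nonneg (k n : ℕ) : 0 ≤ ctF k n := by unfold ctF; positivity

theorem ctG_nonneg (k n : ℕ) : 0 ≤ ctG k n := by unfold ctG; positivity

theorem ctF_succ (k n : ℕ) (hk : 1 ≤ k) (hn : 3 ≤ n) : ctF k (n + 1) ≤ ctF k n * (1 / 4) := by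
  unfold ctF
  have hT := ctT_three hn
  rw [ctT_succ]
  have h1 : ((k * (ctT n + n) : ℕ) : ℝ) ≤ 2 * ((k * ctT n : ℕ) : ℝ) := by
    have : k * (ctT n + n) ≤ 2 * (k * ctT n) := by nlinarith
    exact_mod_cast this
  have h2 : (5 / 2 * ((k * (ctT n + n) : ℕ) : ℝ)) ^ 4 ≤
      16 * (5 / 2 * ((k * ctT n : ℕ) : ℝ)) ^ 4 := by
    calc (5 / 2 * ((k * (ctT n + n) : ℕ) : ℝ)) ^ 4 ≤
          (5 / 2 * (2 * ((k * ctT n : ℕ) : ℝ))) ^ 4 :=
          pow_le_pow_left₀ (by positivity) (by linarith) _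
      _ = _ := by ring
  have h3 : (2 / 5 : ℝ) ^ (2 * (k * (ctT n + n))) * (65 / 64) ^ (2 * (k * (n + 1)) + 4) =
      ((2 / 5) ^ (2 * (k * ctT n)) * (65 / 64) ^ (2 * (k * n) + 4)) *
        ((2 / 5) ^ (2 * (k * n)) * (65 / 64) ^ (2 * k)) := by
    rw [show 2 * (k * (ctT n + n)) = 2 * (k * ctT n) + 2 * (k * n) by ring,
      show 2 * (k * (n + 1)) + 4 = (2 * (k * n) + 4) + 2 * k by ring, pow_add, pow_add]
    ring
  have h4 : (2 / 5 : ℝ) ^ (2 * (k * n)) * (65 / 64) ^ (2 * k) ≤ 1 / 64 := by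
    calc (2 / 5 : ℝ) ^ (2 * (k * n)) * (65 / 64) ^ (2 * k)
        ≤ (2 / 5 : ℝ) ^ (6 * k) * (65 / 64) ^ (2 * k) := by
          refine mul_le_mul_of_nonneg_right ?_ (by positivity)
          exact pow_le_pow_of_le_one (by norm_num) (by norm_num) (by nlinarith)
      _ = (((2 / 5) ^ 6 * (65 / 64) ^ 2 : ℝ)) ^ k := by
          rw [mul_pow, ← pow_mul, ← pow_mul]
      _ ≤ (((2 / 5) ^ 6 * (65 / 64) ^ 2 : ℝ)) ^ 1 :=
          pow_le_pow_of_le_one (by positivity) (by norm_num) hk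
      _ ≤ _ := by norm_num
  calc (5 / 2 * ((k * (ctT n + n) : ℕ) : ℝ)) ^ 4 * (2 / 5) ^ (2 * (k * (ctT n + n))) *
        (65 / 64) ^ (2 * (k * (n + 1)) + 4)
      = (5 / 2 * ((k * (ctT n + n) : ℕ) : ℝ)) ^ 4 * ((2 / 5) ^ (2 * (k * (ctT n + n))) *
        (65 / 64) ^ (2 * (k * (n + 1)) + 4)) := by ring
    _ ≤ (16 * (5 / 2 * ((k * ctT n : ℕ) : ℝ)) ^ 4) *
        (((2 / 5) ^ (2 * (k * ctT n)) * (65 / 64) ^ (2 * (k * n) + 4)) * (1 / 64)) := by
        rw [h3]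
        refine mul_le_mul h2 ?_ (by positivity) (by positivity)
        exact mul_le_mul_of_nonneg_left h4 (by positivity)
    _ = _ := by ring

theorem ctG_succ (k m : ℕ) (hk : 1 ≤ k) (hm : 3 ≤ m) : ctG k (m + 1) ≤ ctG k m * (1 / 4) := by
  unfold ctG
  have hT := ctT_three hm
  rw [ctT_succ (m + 1)]
  have h1 : ((k * (ctT (m + 1) + (m + 1)) : ℕ) : ℝ) ≤ 2 * ((k * ctT (m + 1) : ℕ) : ℝ) := by
    have h0 : m + 1 ≤ ctT (m + 1) := ctT_three (by omega)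
    have : k * (ctT (m + 1) + (m + 1)) ≤ 2 * (k * ctT (m + 1)) := by nlinarith
    exact_mod_cast this
  have h2 : (5 / 2 * ((k * (ctT (m + 1) + (m + 1)) : ℕ) : ℝ)) ^ 4 ≤
      16 * (5 / 2 * ((k * ctT (m + 1) : ℕ) : ℝ)) ^ 4 := by
    calc (5 / 2 * ((k * (ctT (m + 1) + (m + 1)) : ℕ) : ℝ)) ^ 4 ≤
          (5 / 2 * (2 * ((k * ctT (m + 1) : ℕ) : ℝ))) ^ 4 :=
          pow_le_pow_left₀ (by positivity) (by linarith) _
      _ = _ := by ring
  have hkm : 3 ≤ k * m := by nlinarith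
  have h3 : (2 / 5 : ℝ) ^ (2 * (k * ctT (m + 1)) + k * (m + 1) - 2) =
      (2 / 5) ^ (2 * (k * ctT m) + k * m - 2) * (2 / 5) ^ (2 * (k * m) + k) := by
    rw [← pow_add]
    congr 1
    rw [ctT_succ]
    have e1 : 2 * (k * (ctT m + m)) = 2 * (k * ctT m) + 2 * (k * m) := by ring
    have e2 : k * (m + 1) = k * m + k := by ring
    omega
  have h4 : (2 / 5 : ℝ) ^ (2 * (k * m) + k) ≤ 1 / 64 := by
    calc (2 / 5 : ℝ) ^ (2 * (k * m) + k) ≤ (2 / 5 : ℝ) ^ 7 :=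
          pow_le_pow_of_le_one (by norm_num) (by norm_num) (by omega)
      _ ≤ _ := by norm_num
  rw [h3]
  calc (5 / 2 * ((k * (ctT (m + 1) + (m + 1)) : ℕ) : ℝ)) ^ 4 *
        ((2 / 5) ^ (2 * (k * ctT m) + k * m - 2) * (2 / 5) ^ (2 * (k * m) + k))
      ≤ (16 * (5 / 2 * ((k * ctT (m + 1) : ℕ) : ℝ)) ^ 4) *
        ((2 / 5) ^ (2 * (k * ctT m) + k * m - 2) * (1 / 64)) := by
        refine mul_le_mul h2 ?_ (by positivity) (by positivity)
        exact mul_le_mul_of_nonneg_left h4 (by positivity)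
    _ = _ := by ring

theorem ctF_geom (k N : ℕ) (hk : 1 ≤ k) (hN : 3 ≤ N) (j : ℕ) :
    ctF k (N + j) ≤ ctF k N * (1 / 4) ^ j := by
  induction j with
  | zero => simp
  | succ j ih =>
    calc ctF k (N + (j + 1)) ≤ ctF k (N + j) * (1 / 4) := ctF_succ k (N + j) hk (by omega)
      _ ≤ (ctF k N * (1 / 4) ^ j) * (1 / 4) := by gcongr
      _ = _ := by rw [pow_succ]; ring

theorem ctG_geom (k N : ℕ) (hk : 1 ≤ k) (hN : 3 ≤ N) (j : ℕ) :
    ctG k (N + j) ≤ ctG k N * (1 / 4) ^ j := by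
  induction j with
  | zero => simp
  | succ j ih =>
    calc ctG k (N + (j + 1)) ≤ ctG k (N + j) * (1 / 4) := ctG_succ k (N + j) hk (by omega)
      _ ≤ (ctG k N * (1 / 4) ^ j) * (1 / 4) := by gcongr
      _ = _ := by rw [pow_succ]; ring

/-! ### exponents -/

theorem certd_half (n : ℕ) : ((n : ℤ) * ((n : ℤ) + 1) / 2).toNat = ctT (n + 1) := by
  unfold ctT
  rw [Nat.add_sub_cancel]
  have : (n : ℤ) * ((n : ℤ) + 1) / 2 = ((n * (n + 1) / 2 : ℕ) : ℤ) := by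
    push_cast
    rfl
  rw [this, Int.toNat_natCast, mul_comm]

theorem certd_half' (n : ℕ) : ((n : ℤ) * ((n : ℤ) - 1) / 2).toNat = ctT n := by
  cases n with
  | zero => simp [ctT]
  | succ n =>
    unfold ctT
    rw [Nat.add_sub_cancel]
    have : ((n + 1 : ℕ) : ℤ) * (((n + 1 : ℕ) : ℤ) - 1) / 2 = (((n + 1) * n / 2 : ℕ) : ℤ) := by
      push_cast
      rw [add_sub_cancel_right]
    rw [this, Int.toNat_natCast]

theorem exA_nat (k n : ℕ) : exA k (n : ℤ) = k * ctT (n + 1) := by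
  unfold exA
  rw [certd_half]

theorem exB_nat (k n : ℕ) : exB k (n : ℤ) = k * ctT n := by
  unfold exB
  rw [certd_half']

theorem exA_neg (k n : ℕ) : exA k (-(n : ℤ)) = k * ctT n := by
  unfold exA
  rw [show -(n : ℤ) * (-(n : ℤ) + 1) = (n : ℤ) * ((n : ℤ) - 1) by ring, certd_half']

theorem exB_neg (k n : ℕ) : exB k (-(n : ℤ)) = k * ctT (n + 1) := by
  unfold exB
  rw [show -(n : ℤ) * (-(n : ℤ) - 1) = (n : ℤ) * ((n : ℤ) + 1) by ring, certd_half]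

section
variable (k : ℕ) (hk : 1 ≤ k) {x y : ℝ} (hx : 0 ≤ x) (hy : 0 ≤ y) (hx1 : x ≤ 65 / 64)
  (hyx : y ≤ x) (hxy : x * y ≤ 2 / 5) (I J : Fin 6)

include hk hx hy hx1 hxy in
theorem certd_term_pos (n : ℕ) (hn : 3 ≤ n) :
    monJ (exA k (n : ℤ)) (exB k (n : ℤ)) x y I J ≤ ctF k n := by
  rw [exA_nat, exB_nat]
  refine (certd_monJ_le _ _ hx hy I J).trans ?_
  have hT := ctT_three hn
  refine certd_pos _ _ (k * n) _ _ x y hx hy hx1 hxy (certd_st I J) (by nlinarith)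
    (by nlinarith) (by rw [ctT_succ]; ring) ?_
  have h1 : (2 : ℝ) * ((k * ctT (n + 1) : ℕ) : ℝ) ≤ 5 * ((k * ctT n : ℕ) : ℝ) := by
    have h2 : 2 * ctT (n + 1) ≤ 5 * ctT n := by
      rw [ctT_succ]
      omega
    have : 2 * (k * ctT (n + 1)) ≤ 5 * (k * ctT n) := by nlinarith
    exact_mod_cast this
  linarith

include hk hx hy hyx hxy in
theorem certd_term_neg (n : ℕ) (hn : 3 ≤ n) :
    monJ (exA k (-(n : ℤ))) (exB k (-(n : ℤ))) x y I J ≤ ctG k n := by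
  rw [exA_neg, exB_neg]
  refine (certd_monJ_le _ _ hx hy I J).trans ?_
  have hT := ctT_three hn
  exact certd_neg _ _ (k * n) _ _ x y hx hy hyx hxy (certd_st I J) (by nlinarith)
    (by nlinarith) (by rw [ctT_succ]; ring)

include hk hx hy hx1 hyx hxy in
/-- the tails of the moments -/
theorem certd_tail (N M : ℕ) (hN : 3 ≤ N) (hM : 3 ≤ M) :
    ∃ r, 0 ≤ r ∧ r ≤ 4 / 3 * (ctF k N + ctG k M) ∧
      momZ k x y I J = ∑ n ∈ range N, monJ (exA k (n : ℤ)) (exB k (n : ℤ)) x y I J +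
        ∑ n ∈ range (M - 1), monJ (exA k (-((n : ℤ) + 1))) (exB k (-((n : ℤ) + 1))) x y I J +
        r := by
  set f : ℤ → ℝ := fun n => monJ (exA k n) (exB k n) x y I J with hf
  have hf0 : ∀ n, 0 ≤ f n := fun n => certd_monJ_nonneg _ _ hx hy I J
  have hgeo : HasSum (fun j : ℕ => (1 / 4 : ℝ) ^ j) (4 / 3) := by
    have := hasSum_geometric_of_lt_one (r := (1 / 4 : ℝ)) (by norm_num) (by norm_num)
    norm_num at this
    exact this
  -- positive side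
  have hp : ∀ j : ℕ, f ((j + N : ℕ) : ℤ) ≤ ctF k N * (1 / 4) ^ j := by
    intro j
    refine (certd_term_pos k hk hx hy hx1 hxy I J (j + N) (by omega)).trans ?_
    rw [add_comm]
    exact ctF_geom k N hk hN j
  have hps : Summable (fun j : ℕ => f ((j + N : ℕ) : ℤ)) :=
    Summable.of_nonneg_of_le (fun j => hf0 _) hp (hgeo.summable.mul_left _)
  have hps' : Summable (fun j : ℕ => f (j : ℤ)) :=
    (summable_nat_add_iff (f := fun j : ℕ => f (j : ℤ)) N).1 hps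
  have hpt : ∑' j : ℕ, f ((j + N : ℕ) : ℤ) ≤ ctF k N * (4 / 3) := by
    refine (hps.tsum_le_tsum hp (hgeo.summable.mul_left _)).trans (le_of_eq ?_)
    rw [tsum_mul_left, hgeo.tsum_eq]
  -- negative side
  have hn : ∀ j : ℕ, f (-(((j + (M - 1) : ℕ) : ℤ) + 1)) ≤ ctG k M * (1 / 4) ^ j := by
    intro j
    have e : (((j + (M - 1) : ℕ) : ℤ) + 1) = ((j + M : ℕ) : ℤ) := by
      push_cast [Nat.cast_sub (show 1 ≤ M by omega)]
      ring
    rw [e]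
    refine (certd_term_neg k hk hx hy hyx hxy I J (j + M) (by omega)).trans ?_
    rw [add_comm]
    exact ctG_geom k M hk hM j
  have hns : Summable (fun j : ℕ => f (-(((j + (M - 1) : ℕ) : ℤ) + 1))) :=
    Summable.of_nonneg_of_le (fun j => hf0 _) hn (hgeo.summable.mul_left _)
  have hns' : Summable (fun j : ℕ => f (-((j : ℤ) + 1))) :=
    (summable_nat_add_iff (f := fun j : ℕ => f (-((j : ℤ) + 1))) (M - 1)).1 hns
  have hnt : ∑' j : ℕ, f (-(((j + (M - 1) : ℕ) : ℤ) + 1)) ≤ ctG k M * (4 / 3) := by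
    refine (hns.tsum_le_tsum hn (hgeo.summable.mul_left _)).trans (le_of_eq ?_)
    rw [tsum_mul_left, hgeo.tsum_eq]
  refine ⟨∑' j : ℕ, f ((j + N : ℕ) : ℤ) + ∑' j : ℕ, f (-(((j + (M - 1) : ℕ) : ℤ) + 1)),
    add_nonneg (tsum_nonneg fun _ => hf0 _) (tsum_nonneg fun _ => hf0 _), by linarith, ?_⟩
  have h1 := hps'.sum_add_tsum_nat_add N
  have h2 := hns'.sum_add_tsum_nat_add (M - 1)
  have h3 : momZ k x y I J = ∑' n : ℤ, f n := rfl
  rw [h3, tsum_of_nat_of_neg_add_one hps' hns', ← h1, ← h2]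
  ring

end

/-! ### the explicit finite sums -/

/-- exponents of the terms which are not in the tail -/
def ctl (k : ℕ) : List (ℕ × ℕ) :=
  if k = 1 then [(0, 0), (1, 0), (0, 1), (3, 1), (1, 3), (6, 3), (3, 6), (10, 6), (6, 10),
    (15, 10), (10, 15)]
  else if k = 2 then [(0, 0), (2, 0), (0, 2), (6, 2), (2, 6), (12, 6), (6, 12), (20, 12)]
  else [(0, 0), (4, 0), (0, 4), (12, 4), (4, 12), (24, 12)]

theorem certd_small {k N M : ℕ} (h : (k = 1 ∧ N = 6 ∧ M = 6) ∨ (k = 2 ∧ N = 5 ∧ M = 4) ∨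
    (k = 4 ∧ N = 4 ∧ M = 3)) : 4 / 3 * (ctF k N + ctG k M) ≤ 1 / 10000 := by
  rcases h with ⟨rfl, rfl, rfl⟩ | ⟨rfl, rfl, rfl⟩ | ⟨rfl, rfl, rfl⟩ <;>
  · unfold ctF ctG ctT
    norm_num

theorem certd_moment (k : ℕ) (hk : k = 1 ∨ k = 2 ∨ k = 4) {x y : ℝ} (hx : 0 ≤ x) (hy : 0 ≤ y)
    (hx1 : x ≤ 65 / 64) (hyx : y ≤ x) (hxy : x * y ≤ 2 / 5) (I J : Fin 6) :
    ∃ r, 0 ≤ r ∧ r ≤ 1 / 10000 ∧
      momZ k x y I J = ((ctl k).map fun p => monJ p.1 p.2 x y I J).sum + r := by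
  rcases hk with rfl | rfl | rfl
  · obtain ⟨r, h0, h1, h2⟩ := certd_tail 1 le_rfl hx hy hx1 hyx hxy I J 6 6 (by norm_num)
      (by norm_num)
    refine ⟨r, h0, h1.trans (certd_small (Or.inl ⟨rfl, rfl, rfl⟩)), ?_⟩
    rw [h2]
    simp only [sum_range_succ, sum_range_zero, Nat.reduceSub, ctl, if_true, List.map_cons,
      List.map_nil, List.sum_cons, List.sum_nil]
    have e : ∀ n : ℕ, -((n : ℤ) + 1) = -((n + 1 : ℕ) : ℤ) := fun n => by push_cast; ring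
    simp only [e, exA_nat, exB_nat, exA_neg, exB_neg, ctT]
    norm_num
    ring
  · obtain ⟨r, h0, h1, h2⟩ := certd_tail 2 (by norm_num) hx hy hx1 hyx hxy I J 5 4 (by norm_num)
      (by norm_num)
    refine ⟨r, h0, h1.trans (certd_small (Or.inr (Or.inl ⟨rfl, rfl, rfl⟩))), ?_⟩
    rw [h2]
    simp only [sum_range_succ, sum_range_zero, Nat.reduceSub, ctl, if_true, List.map_cons,
      List.map_nil, List.sum_cons, List.sum_nil]
    have e : ∀ n : ℕ, -((n : ℤ) + 1) = -((n + 1 : ℕ) : ℤ) := fun n => by push_cast; ring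
    simp only [e, exA_nat, exB_nat, exA_neg, exB_neg, ctT]
    norm_num
    ring
  · obtain ⟨r, h0, h1, h2⟩ := certd_tail 4 (by norm_num) hx hy hx1 hyx hxy I J 4 3 (by norm_num)
      (by norm_num)
    refine ⟨r, h0, h1.trans (certd_small (Or.inr (Or.inr ⟨rfl, rfl, rfl⟩))), ?_⟩
    rw [h2]
    simp only [sum_range_succ, sum_range_zero, Nat.reduceSub, ctl, if_true, List.map_cons,
      List.map_nil, List.sum_cons, List.sum_nil]
    have e : ∀ n : ℕ, -((n : ℤ) + 1) = -((n + 1 : ℕ) : ℤ) := fun n => by push_cast; ring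
    simp only [e, exA_nat, exB_nat, exA_neg, exB_neg, ctT]
    norm_num
    ring

end RicP
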